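import Pool.Agent.TH783.CE.Num

/-!
# Number fields: elements integral above a rich set of primes form a flat set
-/

set_option autoImplicit false
set_option linter.unusedSectionVars false

namespace Pool.Agent.TH783.CE

open Polynomial Pool.Agent.TH766.HP Filter Topology NumberField IsDedekindDomain

/-- a rich set of primes contains a prime `p` such that a given number field embeds into
`ℚ_[p]` -/
theorem exists_embedding {Q : Set ℕ} (hQ : Rich Q) (L : Type) [Field L] [NumberField L] :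
    ∃ (p : ℕ) (_ : Fact p.Prime), p ∈ Q ∧ Nonempty (L →+* ℚ_[p]) := by
  classical
  set pb := Field.powerBasisOfFiniteOfSeparable ℚ L with hpb
  obtain ⟨G, d, hd, hG⟩ := TRICH.clear (minpoly ℚ pb.gen)
  have hdQ : (d : ℚ) ≠ 0 := by exact_mod_cast hd
  have hGd : 0 < G.natDegree := by
    have h1 : (G.map (Int.castRingHom ℚ)).natDegree = G.natDegree :=
      natDegree_map_eq_of_injective Int.cast_injective G
    rw [← h1, hG, natDegree_C_mul hdQ]
    exact minpoly.natDegree_pos pb.isIntegral_gen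
  obtain ⟨p, hp, hpQ, -, hroot⟩ := hQ {G} 0 (by simpa using hGd)
  obtain ⟨α, hα⟩ := hroot G (Finset.mem_singleton_self _)
  have hα0 : aeval α (minpoly ℚ pb.gen) = 0 := by
    have h1 : aeval α (G.map (Int.castRingHom ℚ)) = 0 := by
      rw [← hα]
      exact aeval_map_algebraMap ℚ α G
    rw [hG, map_mul, aeval_C] at h1
    rcases mul_eq_zero.1 h1 with h | h
    · exact absurd ((map_eq_zero_iff _ (algebraMap ℚ ℚ_[p]).injective).1 h) hdQ
    · exact h
  exact ⟨p, hp, hpQ, ⟨(pb.lift α hα0 : L →ₐ[ℚ] ℚ_[p]).toRingHom⟩⟩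

/-- integers of a number field have norm at most one under an embedding into `ℚ_[p]` -/
theorem norm_int_le {K : Type} [Field K] [NumberField K] {p : ℕ} [hp : Fact p.Prime]
    (σ : K →+* ℚ_[p]) (x : 𝓞 K) : ‖σ (algebraMap (𝓞 K) K x)‖ ≤ 1 := by
  have h1 : IsIntegral ℤ (algebraMap (𝓞 K) K x) := x.isIntegral_coe
  have h2 : IsIntegral ℤ (σ (algebraMap (𝓞 K) K x)) := by
    have := h1.map (σ.toIntAlgHom)
    exact this
  have h3 : IsIntegral ℤ_[p] (σ (algebraMap (𝓞 K) K x)) := h2.tower_top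
  obtain ⟨y, hy⟩ := IsIntegrallyClosed.isIntegral_iff.1 h3
  rw [← hy]
  exact y.2

/-- the place of `K` given by an embedding into `ℚ_[p]` -/
theorem exists_place {K : Type} [Field K] [NumberField K] {p : ℕ} [hp : Fact p.Prime]
    (σ : K →+* ℚ_[p]) : ∃ v : HeightOneSpectrum (𝓞 K), ((p : 𝓞 K) ∈ v.asIdeal) ∧
      ∀ t : K, v.valuation K t ≤ 1 → ‖σ t‖ ≤ 1 := by
  set I : Ideal (𝓞 K) :=
    { carrier := {x | ‖σ (algebraMap (𝓞 K) K x)‖ < 1}
      add_mem' := fun {a b} ha hb => by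
        have ha' : ‖σ (algebraMap (𝓞 K) K a)‖ < 1 := ha
        have hb' : ‖σ (algebraMap (𝓞 K) K b)‖ < 1 := hb
        show ‖σ (algebraMap (𝓞 K) K (a + b))‖ < 1
        rw [map_add, map_add]
        exact (Padic.nonarchimedean _ _).trans_lt (max_lt ha' hb')
      zero_mem' := by
        show ‖σ (algebraMap (𝓞 K) K 0)‖ < 1
        rw [map_zero, map_zero, norm_zero]
        exact one_pos
      smul_mem' := fun c x hx => by
        have hx' : ‖σ (algebraMap (𝓞 K) K x)‖ < 1 := hx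
        show ‖σ (algebraMap (𝓞 K) K (c * x))‖ < 1
        rw [map_mul, map_mul, norm_mul]
        exact (mul_le_of_le_one_left (norm_nonneg _) (norm_int_le σ c)).trans_lt hx' } with hI
  have hmem : ∀ x : 𝓞 K, x ∈ I ↔ ‖σ (algebraMap (𝓞 K) K x)‖ < 1 := fun x => Iff.rfl
  have hpI : (p : 𝓞 K) ∈ I := by
    rw [hmem, map_natCast, map_natCast]
    exact Padic.norm_p_lt_one
  have hprime : I.IsPrime := by
    refine ⟨?_, fun {x y} hxy => ?_⟩
    · intro h
      have h1 : (1 : 𝓞 K) ∈ I := by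
        rw [h]
        exact Submodule.mem_top
      rw [hmem, map_one, map_one, norm_one] at h1
      exact lt_irrefl _ h1
    · by_contra hcon
      rw [not_or, hmem, hmem, not_lt, not_lt] at hcon
      rw [hmem, map_mul, map_mul, norm_mul] at hxy
      have := one_le_mul_of_one_le_of_one_le hcon.1 hcon.2
      linarith
  have hne : I ≠ ⊥ := by
    intro h
    rw [h, Ideal.mem_bot] at hpI
    exact hp.out.ne_zero (by exact_mod_cast hpI)
  refine ⟨⟨I, hprime, hne⟩, hpI, fun t ht => ?_⟩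
  obtain ⟨n, d, hnd⟩ := HeightOneSpectrum.exists_primeCompl_mul_eq_of_integer
    (⟨I, hprime, hne⟩ : HeightOneSpectrum (𝓞 K)) t ht
  have hd : ¬ ((d : 𝓞 K) ∈ I) := d.2
  rw [hmem, not_lt] at hd
  have h1 := congrArg (fun x => ‖σ x‖) hnd
  simp only [map_mul, norm_mul] at h1
  have h2 := norm_int_le σ n
  have h3 : ‖σ t‖ * 1 ≤ 1 := by
    calc ‖σ t‖ * 1 ≤ ‖σ t‖ * ‖σ (algebraMap (𝓞 K) K (d : 𝓞 K))‖ :=
          mul_le_mul_of_nonneg_left hd (norm_nonneg _)
      _ = ‖σ (algebraMap (𝓞 K) K n)‖ := h1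
      _ ≤ 1 := h2
  linarith

/-- the elements of `K` without pole above the primes of `Q` -/
def NoPole (K : Type) [Field K] [NumberField K] (Q : Set ℕ) : Set K :=
  {t | ∀ v : HeightOneSpectrum (𝓞 K),
    (∃ p : ℕ, p.Prime ∧ p ∈ Q ∧ ((p : 𝓞 K) ∈ v.asIdeal)) → v.valuation K t ≤ 1}

/-- values at a root -/
theorem flat_aux {K : Type} [Field K] [CharZero K] {p : ℕ} [hp : Fact p.Prime] (σ : K →+* ℚ_[p])
    (g q₀ q₁ : K[X]) (hg : g ≠ 0) (hq₀ : q₀ ≠ 0) {α : ℚ_[p]} (hα0 : q₀.eval₂ σ α = 0)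
    (hα1 : q₁.eval₂ σ α ≠ 0) : ∃ s : K, g.eval s ≠ 0 ∧ q₀.eval s ≠ 0 ∧
      1 < ‖σ (q₁.eval s / q₀.eval s)‖ := by
  classical
  have hfin : {s : K | (g * q₀).eval s = 0}.Finite := by
    have : {s : K | (g * q₀).eval s = 0} ⊆ (g * q₀).roots.toFinset := by
      intro s hs
      simp only [Finset.mem_coe, Multiset.mem_toFinset]
      exact (mem_roots (mul_ne_zero hg hq₀)).2 hs
    exact (Finset.finite_toSet _).subset this
  have hcont : ∀ q : K[X], Continuous fun x : ℚ_[p] => q.eval₂ σ x := fun q => by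
    have := (q.map σ).continuous
    simpa [eval_map] using this
  have hU : {x : ℚ_[p] | ‖q₀.eval₂ σ x‖ < ‖q₁.eval₂ σ x‖} ∈ 𝓝 α := by
    refine (isOpen_lt (hcont q₀).norm (hcont q₁).norm).mem_nhds ?_
    show ‖q₀.eval₂ σ α‖ < ‖q₁.eval₂ σ α‖
    rw [hα0, norm_zero]
    exact norm_pos_iff.2 hα1
  set F : Set ℚ_[p] := ((fun s : K => σ s) '' {s : K | (g * q₀).eval s = 0}) \ {α}
    with hF
  have hFf : F.Finite := (hfin.image _).sdiff
  have hF1 : Fᶜ ∈ 𝓝 α := hFf.isClosed.isOpen_compl.mem_nhds (by simp [hF])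
  obtain ⟨x, ⟨hx1, hx2⟩, hx3⟩ : ∃ x, x ∈ ({x : ℚ_[p] | ‖q₀.eval₂ σ x‖ < ‖q₁.eval₂ σ x‖} ∩ Fᶜ) ∧
      x ≠ α := by
    have h1 : ({x : ℚ_[p] | ‖q₀.eval₂ σ x‖ < ‖q₁.eval₂ σ x‖} ∩ Fᶜ) ∩ {α}ᶜ ∈ 𝓝[≠] α :=
      inter_mem (mem_nhdsWithin_of_mem_nhds (inter_mem hU hF1)) self_mem_nhdsWithin
    obtain ⟨x, hx, hx'⟩ := (inferInstance : NeBot (𝓝[≠] α)).nonempty_of_mem h1
    exact ⟨x, hx, hx'⟩
  set W : Set ℚ_[p] := {x : ℚ_[p] | ‖q₀.eval₂ σ x‖ < ‖q₁.eval₂ σ x‖} ∩
    ((fun s : K => σ s) '' {s : K | (g * q₀).eval s = 0})ᶜ with hW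
  have hWo : IsOpen W := (isOpen_lt (hcont q₀).norm (hcont q₁).norm).inter
    (hfin.image _).isClosed.isOpen_compl
  have hxW : x ∈ W := ⟨hx1, fun h => hx2 ⟨h, hx3⟩⟩
  obtain ⟨ε, hε, hball⟩ := Metric.isOpen_iff.1 hWo x hxW
  obtain ⟨r, hr⟩ := Padic.rat_dense p x hε
  have hrW : (r : ℚ_[p]) ∈ W := hball (by rw [Metric.mem_ball, dist_comm, dist_eq_norm]; exact hr)
  have hσr : σ (r : K) = (r : ℚ_[p]) := map_ratCast σ r
  have hr1 : (g * q₀).eval (r : K) ≠ 0 := fun h => hrW.2 ⟨(r : K), h, hσr⟩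
  rw [eval_mul] at hr1
  refine ⟨(r : K), left_ne_zero_of_mul hr1, right_ne_zero_of_mul hr1, ?_⟩
  have h7 : ‖q₀.eval₂ σ (r : ℚ_[p])‖ < ‖q₁.eval₂ σ (r : ℚ_[p])‖ := hrW.1
  have h8 : ∀ q : K[X], q.eval₂ σ (r : ℚ_[p]) = σ (q.eval (r : K)) := fun q => by
    rw [← hσr, eval₂_at_apply]
  rw [h8, h8] at h7
  rw [map_div₀, norm_div]
  have h9 : 0 < ‖σ (q₀.eval (r : K))‖ := norm_pos_iff.2 (by
    rw [Ne, map_eq_zero_iff σ σ.injective]
    exact right_ne_zero_of_mul hr1)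
  rwa [lt_div_iff₀ h9, one_mul]

/-- **The elements of a number field without pole above the primes of a rich set form a flat
set.** -/
theorem flat_noPole {K : Type} [Field K] [NumberField K] {Q : Set ℕ} (hQ : Rich Q) :
    Flat (NoPole K Q) := by
  classical
  intro p₀ p₁ h0 h
  obtain ⟨g, q₀, q₁, hg0, hq0, hq1, a, b, hab⟩ : ∃ g q₀ q₁ : K[X], g ≠ 0 ∧ p₀ = g * q₀ ∧
      p₁ = g * q₁ ∧ ∃ a b : K[X], a * q₀ + b * q₁ = 1 := by
    have hg : EuclideanDomain.gcd p₁ p₀ ≠ 0 := fun h => h0 (EuclideanDomain.gcd_eq_zero_iff.1 h).2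
    obtain ⟨q₀, hq₀⟩ := EuclideanDomain.gcd_dvd_right p₁ p₀
    obtain ⟨q₁, hq₁⟩ := EuclideanDomain.gcd_dvd_left p₁ p₀
    refine ⟨EuclideanDomain.gcd p₁ p₀, q₀, q₁, hg, hq₀, hq₁,
      EuclideanDomain.gcdB p₁ p₀, EuclideanDomain.gcdA p₁ p₀, ?_⟩
    have h1 := EuclideanDomain.gcd_eq_gcd_ab p₁ p₀
    generalize EuclideanDomain.gcdB p₁ p₀ = b at *
    generalize EuclideanDomain.gcdA p₁ p₀ = a at *
    generalize EuclideanDomain.gcd p₁ p₀ = g at *
    have h2 : g * (b * q₀ + a * q₁ - 1) = 0 := by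
      rw [hq₀, hq₁] at h1
      linear_combination -h1
    exact sub_eq_zero.1 ((mul_eq_zero.1 h2).resolve_left hg)
  have hq00 : q₀ ≠ 0 := by
    rintro rfl
    exact h0 (by rw [hq0, mul_zero])
  have hval : ∀ s : K, g.eval s ≠ 0 → q₀.eval s ≠ 0 → q₁.eval s / q₀.eval s ∈ NoPole K Q := by
    intro s hs1 hs2
    have h1 := h s (by rw [hq0, eval_mul]; exact mul_ne_zero hs1 hs2)
    rwa [hq0, hq1, eval_mul, eval_mul, mul_div_mul_left _ _ hs1] at h1
  have hlocal : ∀ (p : ℕ) (_ : Fact p.Prime), p ∈ Q → ∀ σ : K →+* ℚ_[p], ∀ s : K,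
      g.eval s ≠ 0 → q₀.eval s ≠ 0 → ‖σ (q₁.eval s / q₀.eval s)‖ ≤ 1 := by
    intro p hp hpQ σ s hs1 hs2
    obtain ⟨v, hv, hv'⟩ := exists_place σ
    exact hv' _ (hval s hs1 hs2 v ⟨p, hp.out, hpQ, hv⟩)
  rcases Nat.eq_zero_or_pos q₀.natDegree with hd0 | hd0
  · rcases Nat.eq_zero_or_pos q₁.natDegree with hd1 | hd1
    · rw [eq_C_of_natDegree_eq_zero hd0] at hq0 hq00
      rw [eq_C_of_natDegree_eq_zero hd1] at hq1
      have hc : q₀.coeff 0 ≠ 0 := fun h => hq00 (by rw [h, C_0])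
      refine ⟨q₁.coeff 0 / q₀.coeff 0, ?_⟩
      rw [hq1, hq0, mul_left_comm, ← C_mul, div_mul_cancel₀ _ hc]
    · exfalso
      obtain ⟨p, hp, hpQ, ⟨σ⟩⟩ := exists_embedding hQ K
      have hc : q₀.coeff 0 ≠ 0 := fun h => hq00 (by rw [eq_C_of_natDegree_eq_zero hd0, h, C_0])
      have hp1 : (1 : ℝ) < (p : ℝ) := by exact_mod_cast hp.out.one_lt
      have hz : Tendsto (fun k : ℕ => ‖σ ((p : K)⁻¹ ^ k)‖) atTop atTop := by
        have e : (fun k : ℕ => ‖σ ((p : K)⁻¹ ^ k)‖) = fun k => (p : ℝ) ^ k := by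
          funext k
          rw [map_pow, map_inv₀, map_natCast, norm_pow, norm_inv]
          simp
        rw [e]
        exact tendsto_pow_atTop_atTop_of_one_lt hp1
      have h1 : Tendsto (fun k : ℕ => ‖q₁.eval₂ σ (σ ((p : K)⁻¹ ^ k))‖) atTop atTop := by
        have h2 := tendsto_norm_atTop (R := ℚ_[p]) (q₁.map σ) (by
          rw [degree_map]
          exact natDegree_pos_iff_degree_pos.1 hd1) hz
        simpa [eval_map] using h2
      have hinj : Function.Injective fun k : ℕ => ((p : K)⁻¹ ^ k) := by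
        intro i j hij
        simp only [inv_pow, inv_inj] at hij
        exact Nat.pow_right_injective hp.out.two_le (by exact_mod_cast hij)
      have hfin : {s : K | g.eval s = 0}.Finite := by
        have : {s : K | g.eval s = 0} ⊆ g.roots.toFinset := by
          intro s hs
          simp only [Finset.mem_coe, Multiset.mem_toFinset]
          exact (mem_roots hg0).2 hs
        exact (Finset.finite_toSet _).subset this
      have h3 : ∀ᶠ k : ℕ in atTop, ((p : K)⁻¹ ^ k) ∉ {s : K | g.eval s = 0} := by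
        have h4 := hfin.preimage (f := fun k : ℕ => ((p : K)⁻¹ ^ k)) hinj.injOn
        have h5 := h4.compl_mem_cofinite
        rw [Nat.cofinite_eq_atTop] at h5
        exact h5
      obtain ⟨k, hk1, hk2⟩ := (h3.and (h1.eventually_gt_atTop ‖σ (q₀.coeff 0)‖)).exists
      have hk1' : g.eval ((p : K)⁻¹ ^ k) ≠ 0 := hk1
      have hq0e : q₀.eval ((p : K)⁻¹ ^ k) = q₀.coeff 0 := by
        conv_lhs => rw [eq_C_of_natDegree_eq_zero hd0]
        rw [eval_C]
      have h6 := hlocal p hp hpQ σ _ hk1' (by rw [hq0e]; exact hc)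
      rw [hq0e, map_div₀, norm_div] at h6
      have h7 : 0 < ‖σ (q₀.coeff 0)‖ := norm_pos_iff.2 (by
        rw [Ne, map_eq_zero_iff σ σ.injective]
        exact hc)
      rw [div_le_one h7] at h6
      rw [eval₂_at_apply] at hk2
      linarith
  · exfalso
    -- a number field containing a root of `q₀`
    obtain ⟨r, hr, hrq⟩ := exists_irreducible_of_natDegree_pos hd0
    have : Fact (Irreducible r) := ⟨hr⟩
    set L := AdjoinRoot r with hL
    have hfd : FiniteDimensional K L := (AdjoinRoot.powerBasis hr.ne_zero).finite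
    have hfdQ : FiniteDimensional ℚ L := FiniteDimensional.trans ℚ K L
    have hch : CharZero L := charZero_of_injective_algebraMap (algebraMap K L).injective
    have hnf : NumberField L := ⟨⟩
    obtain ⟨p, hp, hpQ, ⟨τ⟩⟩ := exists_embedding hQ L
    set σ : K →+* ℚ_[p] := τ.comp (algebraMap K L) with hσ
    have hroot : q₀.eval₂ σ (τ (AdjoinRoot.root r)) = 0 := by
      obtain ⟨q, hq⟩ := hrq
      rw [hq, eval₂_mul, hσ, ← hom_eval₂]
      have : eval₂ (algebraMap K L) (AdjoinRoot.root r) r = 0 := AdjoinRoot.eval₂_root r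
      rw [this, map_zero, zero_mul]
    have hroot1 : q₁.eval₂ σ (τ (AdjoinRoot.root r)) ≠ 0 := by
      intro h1
      have h2 := congrArg (fun q : K[X] => q.eval₂ σ (τ (AdjoinRoot.root r))) hab
      simp only [eval₂_add, eval₂_mul, hroot, h1, mul_zero, add_zero, eval₂_one] at h2
      exact zero_ne_one h2
    obtain ⟨s, hs1, hs2, hs3⟩ := flat_aux σ g q₀ q₁ hg0 hq00 hroot hroot1
    have := hlocal p hp hpQ σ s hs1 hs2
    linarith

end Pool.Agent.TH783.CE
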