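import Pool.Agent.TH783.CE.Hom
import Pool.Agent.TH783.CE.NF
import Pool.Agent.TH716.RK.HpNf

/-!
# Relations given by equations of degree at most three in all variables but one
-/

set_option autoImplicit false
set_option linter.unusedSectionVars false

namespace Pool.Agent.TH783.CE

open MvPolynomial

section

variable {K : Type} [Field K] [CharZero K]

/-- fixing the second variable -/
noncomputable def slice {n : ℕ} (b : K) (f : MvPolynomial (Fin 2 ⊕ Fin n) K) :
    MvPolynomial (Fin (n + 1)) K :=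
  f.eval₂ C (Sum.elim ![X 0, C b] fun j => X j.succ)

lemma eval_slice {n : ℕ} (b : K) (f : MvPolynomial (Fin 2 ⊕ Fin n) K) (a : K) (z : Fin n → K) :
    eval (Fin.cons a z : Fin (n + 1) → K) (slice b f) = eval (Sum.elim ![a, b] z) f := by
  rw [slice, eval_eval₂]
  have h1 : (eval (Fin.cons a z : Fin (n + 1) → K)).comp C = RingHom.id K := by
    ext x
    simp
  have h2 : (fun s => eval (Fin.cons a z : Fin (n + 1) → K)
      (Sum.elim ![X 0, C b] (fun j => X j.succ) s)) = Sum.elim ![a, b] z := by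
    funext s
    rcases s with s | s
    · fin_cases s
      · simp
      · simp
    · simp
  rw [h1, h2]
  rfl

lemma slice_degree {n : ℕ} (b : K) (f : MvPolynomial (Fin 2 ⊕ Fin n) K)
    (hf : ∀ m ∈ f.support, m (Sum.inl 0) + ∑ j, m (Sum.inr j) ≤ 3) :
    (slice b f).totalDegree ≤ 3 := by
  rw [slice, eval₂_eq']
  refine totalDegree_finsetSum_le fun m hm => ?_
  refine (totalDegree_mul _ _).trans ?_
  rw [totalDegree_C, zero_add]
  refine (totalDegree_finsetProd _ _).trans ?_
  refine le_trans ?_ (hf m hm)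
  rw [Fintype.sum_sum_type, Fin.sum_univ_two]
  have e1 : (totalDegree ((Sum.elim ![X 0, C b] (fun j : Fin n => X j.succ) (Sum.inl 0) :
      MvPolynomial (Fin (n + 1)) K) ^ m (Sum.inl 0))) ≤ m (Sum.inl 0) := by
    refine (totalDegree_pow _ _).trans ?_
    simp
  have e2 : (totalDegree ((Sum.elim ![X 0, C b] (fun j : Fin n => X j.succ) (Sum.inl 1) :
      MvPolynomial (Fin (n + 1)) K) ^ m (Sum.inl 1))) ≤ 0 := by
    refine (totalDegree_pow _ _).trans ?_
    simp
  have e3 : ∀ j : Fin n, (totalDegree ((Sum.elim ![X 0, C b] (fun j : Fin n => X j.succ)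
      (Sum.inr j) : MvPolynomial (Fin (n + 1)) K) ^ m (Sum.inr j))) ≤ m (Sum.inr j) := by
    intro j
    refine (totalDegree_pow _ _).trans ?_
    simp
  have e4 := Finset.sum_le_sum fun j (_ : j ∈ (Finset.univ : Finset (Fin n))) => e3 j
  omega

end

/-- finite unions -/
theorem thin_union {K : Type} [Field K] [CharZero K] {O : Set K} (hO : Flat O) (b : K) {k : ℕ}
    {n : Fin k → ℕ} (f : ∀ i, MvPolynomial (Fin 2 ⊕ Fin (n i)) K)
    (hf : ∀ i, ∀ m ∈ (f i).support, m (Sum.inl 0) + ∑ j, m (Sum.inr j) ≤ 3)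
    (h : ∀ a : K, (∃ i, ∃ z : Fin (n i) → K, eval (Sum.elim ![a, b] z) (f i) = 0) → a ∈ O) :
    Thin {a : K | ∃ i, ∃ z : Fin (n i) → K, eval (Sum.elim ![a, b] z) (f i) = 0} := by
  have h1 : {a : K | ∃ i, ∃ z : Fin (n i) → K, eval (Sum.elim ![a, b] z) (f i) = 0} =
      ⋃ i ∈ (Set.univ : Set (Fin k)), {a : K | ∃ z : Fin (n i) → K,
        eval (Fin.cons a z : Fin (n i + 1) → K) (slice b (f i)) = 0} := by
    ext a
    simp only [eval_slice, Set.mem_ofPred_eq, Set.mem_univ, Set.iUnion_true, Set.mem_iUnion]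
  rw [h1]
  refine Thin.biUnion Set.finite_univ fun i _ => ?_
  refine thin_affine hO _ (slice_degree b (f i) (hf i)) fun t z hz => ?_
  rw [eval_slice] at hz
  exact h t ⟨i, z, hz⟩

/-- thin subsets of number fields miss infinitely many rational integers -/
theorem Thin.exists_int {K : Type} [Field K] [NumberField K] {D : Set K} (hD : Thin D) (B : ℤ) :
    ∃ m : ℤ, B < m ∧ (m : K) ∉ D := by
  obtain ⟨E, hE, G, hG, hroot, hcov⟩ := hD
  have hfin : {m : ℤ | (m : K) ∈ E}.Finite := hE.preimage Int.cast_injective.injOn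
  obtain ⟨B', hB'⟩ := hfin.bddAbove
  obtain ⟨m, hm, hm'⟩ := Pool.Agent.TH716.RK.hp_nf K G hG hroot (max B B')
  refine ⟨m, (le_max_left _ _).trans_lt hm, fun h => ?_⟩
  rcases hcov _ h with h1 | ⟨x, hx⟩
  · exact absurd (hB' h1) (not_le.2 ((le_max_right _ _).trans_lt hm))
  · exact hm' x hx

end Pool.Agent.TH783.CE
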