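import Pool.Agent.TH783.CE.Flat
import Pool.Agent.TH729.CV.Alg

/-!
# Classification of the nonsingular zeros of a cubic form with values in a flat set
-/

set_option autoImplicit false
set_option linter.unusedSectionVars false

namespace Pool.Agent.TH783.CE

open Polynomial Pool.Agent.TH729.CV

variable {K V : Type} [Field K] [CharZero K] [AddCommGroup V] [Module K V] {T : STri K V}
  {x₀ x₁ : V →ₗ[K] K} {O : Set K}

lemma rot (T : STri K V) (a b c : V) : T.f a b c = T.f b c a :=
  (T.s12 a b c).trans (T.s23 b a c)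

lemma rot' (T : STri K V) (a b c : V) : T.f a b c = T.f c a b :=
  (T.s23 a b c).trans (T.s12 a c b)

lemma s13 (T : STri K V) (a b c : V) : T.f a b c = T.f c b a :=
  (rot' T a b c).trans (T.s23 c a b)

/-- the cube of a combination -/
lemma cub (T : STri K V) (α β : K) (u v : V) :
    T.f (α • u + β • v) (α • u + β • v) (α • u + β • v) =
      α ^ 3 * T.f u u u + 3 * α ^ 2 * β * T.f u u v + 3 * α * β ^ 2 * T.f u v v +
        β ^ 3 * T.f v v v := by
  simp only [map_add, map_smul, LinearMap.add_apply, LinearMap.smul_apply, smul_eq_mul]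
  rw [T.s12 v u u, T.s23 u v u, T.s23 v v u, T.s12 v u v]
  ring

lemma cub' (T : STri K V) (β : K) (u v : V) :
    T.f (u + β • v) (u + β • v) (u + β • v) =
      T.f u u u + 3 * β * T.f u u v + 3 * β ^ 2 * T.f u v v + β ^ 3 * T.f v v v := by
  have := cub T 1 β u v
  rw [one_smul] at this
  rw [this]
  ring

/-- the square of a combination -/
lemma squ (T : STri K V) (w : V) (α β : K) (u v : V) :
    T.f w (α • u + β • v) (α • u + β • v) =
      α ^ 2 * T.f w u u + 2 * α * β * T.f w u v + β ^ 2 * T.f w v v := by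
  simp only [map_add, map_smul, LinearMap.add_apply, LinearMap.smul_apply, smul_eq_mul]
  rw [T.s23 w v u]
  ring

lemma squ' (T : STri K V) (w : V) (β : K) (u v : V) :
    T.f w (u + β • v) (u + β • v) =
      T.f w u u + 2 * β * T.f w u v + β ^ 2 * T.f w v v := by
  have := squ T w 1 β u v
  rw [one_smul] at this
  rw [this]
  ring

/-- a form vanishing on the diagonal of a subspace vanishes there -/
lemma pol3 {T : STri K V} {N : Submodule K V} (h : ∀ w ∈ N, T.f w w w = 0) :
    ∀ a ∈ N, ∀ b ∈ N, ∀ c ∈ N, T.f a b c = 0 := by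
  have h1 : ∀ a ∈ N, ∀ b ∈ N, T.f a b b = 0 := by
    intro a ha b hb
    have e1 := cub' T 1 a b
    have e2 := cub' T (-1) a b
    rw [h _ (N.add_mem ha (N.smul_mem _ hb)), h a ha, h b hb] at e1 e2
    have : (6 : K) * T.f a b b = 0 := by linear_combination -e1 - e2
    exact (mul_eq_zero.1 this).resolve_left (by norm_num)
  intro a ha b hb c hc
  have e1 := squ' T a 1 b c
  rw [h1 a ha _ (N.add_mem hb (N.smul_mem _ hc)), h1 a ha b hb, h1 a ha c hc] at e1
  have : (2 : K) * T.f a b c = 0 := by linear_combination -e1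
  exact (mul_eq_zero.1 this).resolve_left (by norm_num)

/-- all the values lie in `O` -/
def VD (O : Set K) (T : STri K V) (x₀ x₁ : V →ₗ[K] K) : Prop :=
  ∀ P, T.f P P P = 0 → x₀ P ≠ 0 → x₁ P / x₀ P ∈ O

/-- the functionals are independent -/
def Ind (x₀ x₁ : V →ₗ[K] K) : Prop := ∀ a b : K, (∀ v, a * x₀ v + b * x₁ v = 0) → a = 0 ∧ b = 0

lemma PolyLine.tri' (T : STri K V) : PolyLine fun w => T.f w w w := PolyLine.tri T.f
lemma PolyLine.bil' (T : STri K V) (P : V) : PolyLine fun w => T.f P w w := PolyLine.bil (T.f P)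

/-- the tangent construction -/
theorem tangent (hO : Flat O) (h : VD O T x₀ x₁) {P : V} (hP : T.f P P P = 0) :
    ∃ a b : K, (a ≠ 0 ∨ b ≠ 0) ∧ ∀ w, T.f P P w = 0 →
      (a * x₀ P + b * x₁ P) * T.f w w w = 3 * T.f P w w * (a * x₀ w + b * x₁ w) := by
  have hpl : ∀ x : V →ₗ[K] K, PolyLine fun w => T.f w w w * x P - 3 * T.f P w w * x w :=
    fun x => ((PolyLine.tri' T).mul (PolyLine.const (x P))).sub
      (((PolyLine.const 3).mul (PolyLine.bil' T P)).mul (PolyLine.lin x))
  obtain ⟨a, b, hab, hh⟩ := prop_of hO _ _ ((hpl x₀).comp (LinearMap.ker (T.f P P)).subtype)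
    ((hpl x₁).comp (LinearMap.ker (T.f P P)).subtype) (by
      rintro ⟨w, hw⟩ hne
      have hw' : T.f P P w = 0 := hw
      have hx : ∀ x : V →ₗ[K] K, T.f w w w * x P - 3 * T.f P w w * x w =
          x (T.f w w w • P + (-(3 * T.f P w w)) • w) := fun x => by
        rw [map_add, map_smul, map_smul, smul_eq_mul, smul_eq_mul]
        ring
      simp only [Submodule.subtype_apply] at hne ⊢
      rw [hx] at hne
      rw [hx, hx]
      refine h _ ?_ hne
      rw [cub, hP, hw']
      ring)
  refine ⟨a, b, hab, fun w hw => ?_⟩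
  have := hh ⟨w, hw⟩
  simp only [Submodule.subtype_apply] at this
  linear_combination this

/-- two proportional quadratic forms -/
lemma pencil (N : Submodule K V) (T : STri K V) (P q : V) {n₀ : V}
    (hne : ¬ (T.f P n₀ n₀ = 0 ∧ T.f q n₀ n₀ = 0)) (hb : ∃ n ∈ N, T.f P n n ≠ 0)
    (hd : ∃ n ∈ N, T.f q n n ≠ 0)
    (H : ∀ w ∈ N, T.f q w w ≠ 0 → (∀ n ∈ N, T.f P w n * T.f q w w = T.f P w w * T.f q w n) ∨
      T.f q w w * T.f P n₀ n₀ = T.f P w w * T.f q n₀ n₀) :
    ∃ ρ : K, ρ ≠ 0 ∧ ∀ w ∈ N, T.f P w w = ρ * T.f q w w := by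
  obtain ⟨n₁, hn₁, hb⟩ := hb
  obtain ⟨w₀, hw₀, hd⟩ := hd
  have pP := PolyLine.bil' T P
  have pq := PolyLine.bil' T q
  have pl : ∀ u n, PolyLine fun w => T.f u w n := fun u n => by
    have : (fun w => T.f u w n) = fun w => T.f u n w := funext fun w => T.s23 u w n
    rw [this]
    exact PolyLine.lin (T.f u n)
  by_cases hfb : ∀ w ∈ N, T.f q w w * T.f P n₀ n₀ - T.f P w w * T.f q n₀ n₀ = 0
  · have hβ : T.f P n₀ n₀ ≠ 0 := by
      intro h0
      have h1 := hfb n₁ hn₁
      rw [h0, mul_zero, zero_sub, neg_eq_zero] at h1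
      exact hne ⟨h0, (mul_eq_zero.1 h1).resolve_left hb⟩
    have hδ : T.f q n₀ n₀ ≠ 0 := by
      intro h0
      have h1 := hfb w₀ hw₀
      rw [h0, mul_zero, sub_zero] at h1
      exact hne ⟨(mul_eq_zero.1 h1).resolve_left hd, h0⟩
    refine ⟨T.f P n₀ n₀ / T.f q n₀ n₀, div_ne_zero hβ hδ, fun w hw => ?_⟩
    have h1 := hfb w hw
    field_simp
    linear_combination -h1
  · have hfn : ∀ n ∈ N, ∀ w ∈ N, T.f P w n * T.f q w w - T.f P w w * T.f q w n = 0 := by
      intro n hn
      have p1 : PolyLine fun w => T.f q w w * T.f P n₀ n₀ - T.f P w w * T.f q n₀ n₀ :=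
        (pq.mul (PolyLine.const _)).sub (pP.mul (PolyLine.const _))
      have p2 : PolyLine fun w => T.f P w n * T.f q w w - T.f P w w * T.f q w n :=
        ((pl P n).mul pq).sub (pP.mul (pl q n))
      rcases (pq.mul p1).mul_zero_on p2 N (fun w hw => by
        by_cases h0 : T.f q w w = 0
        · left
          show T.f q w w * _ = 0
          rw [h0, zero_mul]
        rcases H w hw h0 with h1 | h1
        · right
          exact sub_eq_zero.2 (h1 n hn)
        · left
          show T.f q w w * _ = 0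
          rw [sub_eq_zero.2 h1, mul_zero]) with h1 | h1
      · exfalso
        rcases pq.mul_zero_on p1 N (fun w hw => mul_eq_zero.1 (h1 w hw)) with h2 | h2
        · exact hd (h2 w₀ hw₀)
        · exact hfb h2
      · exact h1
    set ρ := T.f P w₀ w₀ / T.f q w₀ w₀ with hρ
    have h1 : ∀ w ∈ N, T.f P w w₀ = ρ * T.f q w w₀ := by
      intro w hw
      have h2 := hfn w hw w₀ hw₀
      rw [T.s23 P w w₀, T.s23 q w w₀, hρ]
      field_simp
      linear_combination h2
    have h3 : ∀ w ∈ N, T.f P w w - ρ * T.f q w w = 0 := by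
      rcases (pq.mul (pl q w₀)).mul_zero_on (pP.sub ((PolyLine.const ρ).mul pq)) N
        (fun w hw => by
          by_cases h0 : T.f q w w = 0
          · left
            show T.f q w w * _ = 0
            rw [h0, zero_mul]
          by_cases h00 : T.f q w w₀ = 0
          · left
            show _ * T.f q w w₀ = 0
            rw [h00, mul_zero]
          right
          have h4 := hfn w₀ hw₀ w hw
          rw [h1 w hw] at h4
          have h5 : T.f q w w₀ * (T.f P w w - ρ * T.f q w w) = 0 := by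
            linear_combination -h4
          exact (mul_eq_zero.1 h5).resolve_left h00) with h2 | h2
      · exfalso
        have h3 : T.f q w₀ w₀ * T.f q w₀ w₀ = 0 := h2 w₀ hw₀
        exact hd (mul_self_eq_zero.1 h3)
      · exact h2
    refine ⟨ρ, ?_, fun w hw => sub_eq_zero.1 (h3 w hw)⟩
    intro h0
    have h4 := h3 n₁ hn₁
    rw [h0, zero_mul, sub_zero] at h4
    exact hb h4

end Pool.Agent.TH783.CE
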