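import Pool.Agent.TH783.CE.Cls

/-!
# Classification of the nonsingular zeros of a cubic form with values in a flat set
-/

set_option autoImplicit false
set_option linter.unusedSectionVars false

namespace Pool.Agent.TH783.CE

open Polynomial Pool.Agent.TH729.CV

variable {K V : Type} [Field K] [CharZero K] [AddCommGroup V] [Module K V] {T : STri K V}
  {x₀ x₁ : V →ₗ[K] K} {O : Set K}

/-- a functional vanishing on a hyperplane is a multiple -/
lemma mul_of {τ lam : V →ₗ[K] K} (hτ : ∃ v, τ v ≠ 0) (h : ∀ w, τ w = 0 → lam w = 0)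
    : ∃ c : K, ∀ v, lam v = c * τ v := by
  obtain ⟨v₀, hv⟩ := hτ
  refine ⟨lam v₀ / τ v₀, fun v => ?_⟩
  have h1 := h (v - (τ v / τ v₀) • v₀) (by
    rw [map_sub, map_smul, smul_eq_mul]
    field_simp
    ring)
  rw [map_sub, map_smul, smul_eq_mul] at h1
  field_simp at h1 ⊢
  linear_combination h1

/-- extraction of coefficients -/
lemma coef {c₁ c₂ c₃ : K} (h : ∀ s : K, c₁ * s + c₂ * s ^ 2 + c₃ * s ^ 3 = 0) :
    c₁ = 0 ∧ c₂ = 0 ∧ c₃ = 0 := by
  have h1 := h 1
  have h2 := h (-1)
  have h3 := h 2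
  have e1 : (6 : K) * c₁ = 0 := by linear_combination 6 * h1 - 2 * h2 - h3
  have e2 : (2 : K) * c₂ = 0 := by linear_combination h1 + h2
  have e3 : c₁ = 0 := (mul_eq_zero.1 e1).resolve_left (by norm_num)
  have e4 : c₂ = 0 := (mul_eq_zero.1 e2).resolve_left (by norm_num)
  refine ⟨e3, e4, ?_⟩
  rw [e3, e4] at h1
  linear_combination h1

/-- the classification -/
theorem classify [FiniteDimensional K V] (hd : 4 ≤ Module.finrank K V) (hO : Flat O)
    (h : VD O T x₀ x₁) (hS : NoSing T) (hind : Ind x₀ x₁) {P : V} (hP : T.f P P P = 0)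
    (hP0 : P ≠ 0) :
    (∀ w, T.f P P w = 0 → T.f P w w = 0) ∨ (∃ a b : K, ∀ v, T.f P P v = a * x₀ v + b * x₁ v) ∨
      ∃ x, Dat T P x := by
  by_contra hcon
  simp only [not_or] at hcon
  obtain ⟨hnf, hcr, hdat⟩ := hcon
  obtain ⟨a, b, hab, hl⟩ := tangent hO h hP
  obtain ⟨lam, hlv⟩ : ∃ lam : V →ₗ[K] K, ∀ v, lam v = a * x₀ v + b * x₁ v :=
    ⟨a • x₀ + b • x₁, fun v => rfl⟩
  have hτ : ∃ v, T.f P P v ≠ 0 := hS P hP0
  have hl0 : ∃ v, lam v ≠ 0 := by
    by_contra h0
    push Not at h0
    obtain ⟨ha, hb⟩ := hind a b (fun v => by rw [← hlv, h0])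
    rcases hab with h1 | h1
    · exact h1 ha
    · exact h1 hb
  by_cases hlP : lam P = 0
  · rcases (PolyLine.bil' T P).mul_zero_on (PolyLine.lin lam) (LinearMap.ker (T.f P P))
      (fun w hw => by
        have h1 := hl w hw
        rw [← hlv, ← hlv, hlP, zero_mul, mul_assoc] at h1
        exact mul_eq_zero.1 ((mul_eq_zero.1 h1.symm).resolve_left (by norm_num))) with h1 | h1
    · exact hnf h1
    · obtain ⟨c, hc⟩ := mul_of hτ h1
      obtain ⟨v, hv⟩ := hl0
      have hc0 : c ≠ 0 := by
        rintro rfl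
        rw [hc, zero_mul] at hv
        exact hv rfl
      refine hcr ⟨a / c, b / c, fun w => ?_⟩
      have h2 := hc w
      rw [hlv] at h2
      field_simp
      linear_combination -h2
  obtain ⟨x, hxv⟩ : ∃ x : V →ₗ[K] K, ∀ v, x v = (lam P)⁻¹ * lam v :=
    ⟨(lam P)⁻¹ • lam, fun v => rfl⟩
  have hxP : x P = 1 := by rw [hxv, inv_mul_cancel₀ hlP]
  have hF : ∀ w, T.f P P w = 0 → T.f w w w = 3 * T.f P w w * x w := by
    intro w hw
    have h1 := hl w hw
    rw [← hlv, ← hlv] at h1
    rw [hxv]
    field_simp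
    linear_combination h1
  have hx01 : ∀ v, x₀ v = 0 → x₁ v = 0 → x v = 0 := by
    intro v h0 h1
    rw [hxv, hlv v, h0, h1]
    ring
  -- the vector `q`
  obtain ⟨q, hq1, hq2⟩ : ∃ q, T.f P P q = 1 ∧ x q = 0 := by
    obtain ⟨v, hv⟩ := hτ
    refine ⟨(T.f P P v)⁻¹ • (v - x v • P), ?_, ?_⟩
    · rw [map_smul, map_sub, map_smul, hP, smul_zero, sub_zero, smul_eq_mul, inv_mul_cancel₀ hv]
    · rw [map_smul, map_sub, map_smul, hxP, smul_eq_mul, smul_eq_mul, mul_one, sub_self, mul_zero]
  set N : Submodule K V := NS T P x with hN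
  have hmem : ∀ w, w ∈ N ↔ T.f P P w = 0 ∧ x w = 0 := fun w => mem_NS
  have hFN : ∀ w ∈ N, T.f w w w = 0 := by
    intro w hw
    obtain ⟨h1, h2⟩ := (hmem w).1 hw
    rw [hF w h1, h2, mul_zero]
  have h3N := pol3 hFN
  have hdec : ∀ v, v - x v • P - T.f P P v • q ∈ N := by
    intro v
    rw [hmem]
    constructor
    · rw [map_sub, map_sub, map_smul, map_smul, hP, hq1, smul_zero, smul_eq_mul, mul_one, sub_zero,
        sub_self]
    · rw [map_sub, map_sub, map_smul, map_smul, hxP, hq2, smul_zero, smul_eq_mul, mul_one, sub_self,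
        sub_zero]
  have hform : ∀ w ∈ N, ∀ w' ∈ N, ∀ v,
      T.f w w' v = x v * T.f P w w' + T.f P P v * T.f q w w' := by
    intro w hw w' hw' v
    have h1 := h3N w hw w' hw' _ (hdec v)
    rw [map_sub, map_sub, map_smul, map_smul, smul_eq_mul, smul_eq_mul, rot' T w w' P,
      rot' T w w' q] at h1
    linear_combination h1
  have haniso : ∀ w ∈ N, w ≠ 0 → ¬ (T.f P w w = 0 ∧ T.f q w w = 0) := by
    rintro w hw hw0 ⟨h1, h2⟩
    obtain ⟨v, hv⟩ := hS w hw0
    rw [hform w hw w hw, h1, h2] at hv
    apply hv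
    ring
  have hb : ∃ n ∈ N, T.f P n n ≠ 0 := by
    by_contra h0
    push Not at h0
    apply hnf
    intro w hw
    have h1 : w - x w • P ∈ N := by
      rw [hmem]
      constructor
      · rw [map_sub, map_smul, hw, hP, smul_zero, sub_zero]
      · rw [map_sub, map_smul, hxP, smul_eq_mul, mul_one, sub_self]
    have h2 := h0 _ h1
    have h3 := squ' T P (-x w) w P
    rw [neg_smul, ← sub_eq_add_neg, h2, T.s23 P w P, hw, hP] at h3
    linear_combination -h3
  by_cases hd0 : ∀ w ∈ N, T.f q w w = 0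
  · apply hdat
    refine ⟨x, hP, hxP, fun w h1 h2 v => ?_, fun w h1 h2 hw0 h3 => ?_⟩
    · have hw := (hmem w).2 ⟨h1, h2⟩
      rw [hform w hw w hw, hd0 w hw]
      ring
    · have hw := (hmem w).2 ⟨h1, h2⟩
      exact haniso w hw hw0 ⟨h3, hd0 w hw⟩
  push Not at hd0
  -- the vector `n₀`
  obtain ⟨n₀, hn0, hnN, hn1, hn2⟩ : ∃ n, n ≠ 0 ∧ n ∈ N ∧ x₀ n = 0 ∧ x₁ n = 0 := by
    have k1 := LinearMap.finrank_range_add_finrank_ker (((T.f P P).prod x₀).prod x₁)
    have k2 : Module.finrank K (LinearMap.range (((T.f P P).prod x₀).prod x₁)) ≤ 3 := by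
      refine (Submodule.finrank_le _).trans ?_
      simp
    have k3 : 0 < Module.finrank K (LinearMap.ker (((T.f P P).prod x₀).prod x₁)) := by omega
    have k4 := Module.finrank_pos_iff_exists_ne_zero.1 k3
    obtain ⟨⟨u, hu⟩, hne⟩ := k4
    simp only [LinearMap.mem_ker, LinearMap.prod_apply, Function.prod, Prod.mk_eq_zero] at hu
    exact ⟨u, by simpa using hne, (hmem u).2 ⟨hu.1.1, hx01 u hu.1.2 hu.2⟩, hu.1.2, hu.2⟩
  obtain ⟨ρ, hρ0, hρ⟩ := pencil N T P q (haniso n₀ hnN hn0) hb hd0 (by
    intro w hw hqw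
    have hFw := hFN w hw
    obtain ⟨a', b', hab', hl'⟩ := tangent hO h hFw
    obtain ⟨xi, hxiv⟩ : ∃ xi : V →ₗ[K] K, ∀ v, a' * x₀ v + b' * x₁ v = xi v :=
      ⟨a' • x₀ + b' • x₁, fun v => rfl⟩
    simp only [hxiv] at hl'
    set g : V := T.f q w w • P - T.f P w w • q with hg
    have hwg : T.f w w g = 0 := by
      rw [hg, map_sub, map_smul, map_smul, smul_eq_mul, smul_eq_mul, rot' T w w P, rot' T w w q]
      ring
    have hco : ∀ n ∈ N, xi w * T.f n n g - 2 * T.f w n g * xi n = 0 ∧
        xi w * T.f n g g - 2 * T.f w n g * xi g - T.f w g g * xi n = 0 ∧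
        xi w * T.f g g g - 3 * T.f w g g * xi g = 0 := by
      intro n hn
      have key := coef (c₁ := 3 * (xi w * T.f n n g - 2 * T.f w n g * xi n))
        (c₂ := 3 * (xi w * T.f n g g - 2 * T.f w n g * xi g - T.f w g g * xi n))
        (c₃ := xi w * T.f g g g - 3 * T.f w g g * xi g) (by
        intro s
        have h1 := hl' (n + s • g) (by
          rw [map_add, map_smul, hwg, h3N w hw w hw n hn, smul_zero, add_zero])
        rw [cub', squ', map_add, map_smul, hFN n hn, h3N w hw n hn n hn, smul_eq_mul] at h1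
        linear_combination h1)
      refine ⟨(mul_eq_zero.1 key.1).resolve_left (by norm_num),
        (mul_eq_zero.1 key.2.1).resolve_left (by norm_num), key.2.2⟩
    by_cases hxw : xi w = 0
    · left
      have hD : ∀ n ∈ N, T.f w n g = 0 := by
        by_cases hxg : xi g = 0
        · rcases (PolyLine.lin (T.f w g)).mul_zero_on (PolyLine.lin xi) N (fun n hn => by
            have h1 := (hco n hn).1
            rw [hxw, zero_mul, zero_sub, neg_eq_zero, mul_assoc] at h1
            rw [T.s23 w g n]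
            exact mul_eq_zero.1 ((mul_eq_zero.1 h1).resolve_left (by norm_num))) with h1 | h1
          · intro n hn
            rw [T.s23]
            exact h1 n hn
          · exfalso
            have hxq : ∀ v, xi v = x v * xi P + T.f P P v * xi q := by
              intro v
              have h2 := h1 _ (hdec v)
              rw [map_sub, map_sub, map_smul, map_smul, smul_eq_mul, smul_eq_mul] at h2
              linear_combination h2
            by_cases hxq0 : xi q = 0
            · rw [hg, map_sub, map_smul, map_smul, smul_eq_mul, smul_eq_mul, hxq0, mul_zero,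
                sub_zero] at hxg
              have hxP0 := (mul_eq_zero.1 hxg).resolve_left hqw
              obtain ⟨h2, h3⟩ := hind a' b' (fun v => by
                rw [hxiv, hxq, hxP0, hxq0]
                ring)
              rcases hab' with h4 | h4
              · exact h4 h2
              · exact h4 h3
            · apply hcr
              refine ⟨(a' - xi P * (lam P)⁻¹ * a) / xi q, (b' - xi P * (lam P)⁻¹ * b) / xi q,
                fun v => ?_⟩
              have h2 := hxq v
              rw [hxv, hlv v, ← hxiv v] at h2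
              generalize (lam P)⁻¹ = c at h2 ⊢
              field_simp
              linear_combination -h2
        · have h0 := (hco w hw).2.2
          rw [hxw, zero_mul, zero_sub, neg_eq_zero] at h0
          have h1 : T.f w g g = 0 := by
            rcases mul_eq_zero.1 h0 with h2 | h2
            · exact (mul_eq_zero.1 h2).resolve_left (by norm_num)
            · exact (hxg h2).elim
          intro n hn
          have h2 := (hco n hn).2.1
          rw [hxw, h1] at h2
          have h3 : (2 * xi g) * T.f w n g = 0 := by linear_combination -h2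
          exact (mul_eq_zero.1 h3).resolve_left (mul_ne_zero (by norm_num) hxg)
      intro n hn
      have h1 := hD n hn
      rw [hg, map_sub, map_smul, map_smul, smul_eq_mul, smul_eq_mul, rot' T w n P,
        rot' T w n q] at h1
      linear_combination h1
    · right
      have h1 := (hco n₀ hnN).1
      rw [← hxiv n₀, hn1, hn2, mul_zero, mul_zero, add_zero, mul_zero, sub_zero] at h1
      have h2 := (mul_eq_zero.1 h1).resolve_left hxw
      rw [hg, map_sub, map_smul, map_smul, smul_eq_mul, smul_eq_mul, rot' T n₀ n₀ P,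
        rot' T n₀ n₀ q] at h2
      linear_combination h2)
  apply hdat
  refine ⟨x + ρ⁻¹ • T.f P P, hP, ?_, fun w h1 h2 v => ?_, fun w h1 h2 hw0 h3 => ?_⟩
  · rw [LinearMap.add_apply, LinearMap.smul_apply, hP, hxP, smul_zero, add_zero]
  · rw [LinearMap.add_apply, LinearMap.smul_apply, h1, smul_zero, add_zero] at h2
    have hw := (hmem w).2 ⟨h1, h2⟩
    rw [hform w hw w hw, LinearMap.add_apply, LinearMap.smul_apply, smul_eq_mul, hρ w hw]
    field_simp
  · rw [LinearMap.add_apply, LinearMap.smul_apply, h1, smul_zero, add_zero] at h2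
    have hw := (hmem w).2 ⟨h1, h2⟩
    refine haniso w hw hw0 ⟨h3, ?_⟩
    rw [hρ w hw] at h3
    exact (mul_eq_zero.1 h3).resolve_left hρ0

end Pool.Agent.TH783.CE
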