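import Pool.Agent.TH783.CE.Cls

/-!
# Critical zeros
-/

set_option autoImplicit false
set_option linter.unusedSectionVars false

namespace Pool.Agent.TH783.CE

open Polynomial Pool.Agent.TH729.CV

variable {K V : Type} [Field K] [CharZero K] [AddCommGroup V] [Module K V] {T : STri K V}
  {x₀ x₁ : V →ₗ[K] K} {O : Set K}

/-- a critical zero -/
structure CP (T : STri K V) (x₀ x₁ : V →ₗ[K] K) (P : V) (κ t : K) : Prop where
  h0 : x₀ P = 1
  h1 : x₁ P = t
  hκ : κ ≠ 0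
  hT : ∀ v, T.f P P v = κ * (x₁ v - t * x₀ v)

lemma CP.zero {P : V} {κ t : K} (h : CP T x₀ x₁ P κ t) : T.f P P P = 0 := by
  rw [h.hT, h.h0, h.h1]
  ring

/-- in the span -/
def Sp (x₀ x₁ : V →ₗ[K] K) (l : V → K) : Prop := ∃ a b : K, ∀ v, l v = a * x₀ v + b * x₁ v

lemma CP.two {P Q : V} {κ κ' t t' : K} (h : CP T x₀ x₁ P κ t) (h' : CP T x₀ x₁ Q κ' t')
    (htt : t ≠ t') {L : Set (V →ₗ[K] K)}
    (hcl : ∀ R, R ≠ 0 → T.f R R R = 0 → (∀ y ∈ L, y R ≠ 0) → Sp x₀ x₁ fun v => T.f R R v)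
    (hL : ∀ y ∈ L, y P / κ + y Q / κ' ≠ 0) : Sp x₀ x₁ fun v => T.f P Q v := by
  have hκ := h.hκ
  have hκ' := h'.hκ
  have e1 : T.f P P Q = κ * (t' - t) := by rw [h.hT, h'.h0, h'.h1, mul_one]
  have e2 : T.f P Q Q = κ' * (t - t') := by rw [rot T P Q Q, h'.hT, h.h0, h.h1, mul_one]
  obtain ⟨a, b, hab⟩ := hcl (κ' • P + κ • Q) (by
      intro h0
      have f0 := congrArg x₀ h0
      have f1 := congrArg x₁ h0
      simp only [map_add, map_smul, smul_eq_mul, h.h0, h'.h0, h.h1, h'.h1, map_zero, mul_one]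
        at f0 f1
      have f2 : κ' * (t - t') = 0 := by linear_combination f1 - t' * f0
      rcases mul_eq_zero.1 f2 with h | h
      · exact hκ' h
      · exact htt (sub_eq_zero.1 h)) (by
      rw [cub, h.zero, h'.zero, e1, e2]
      ring) (fun y hy h0 => by
      apply hL y hy
      rw [map_add, map_smul, map_smul, smul_eq_mul, smul_eq_mul] at h0
      field_simp
      linear_combination h0)
  refine ⟨(a + κ' ^ 2 * κ * t + κ ^ 2 * κ' * t') / (2 * κ * κ'),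
    (b - κ' ^ 2 * κ - κ ^ 2 * κ') / (2 * κ * κ'), fun v => ?_⟩
  have f := hab v
  simp only [map_add, map_smul, LinearMap.add_apply, LinearMap.smul_apply, smul_eq_mul] at f
  rw [h.hT v, h'.hT v, T.s12 Q P v] at f
  field_simp
  linear_combination f

lemma CP.three (hS : NoSing T) {P₁ P₂ P₃ : V} {κ₁ κ₂ κ₃ t₁ t₂ t₃ : K} (h1 : CP T x₀ x₁ P₁ κ₁ t₁)
    (h2 : CP T x₀ x₁ P₂ κ₂ t₂) (h3 : CP T x₀ x₁ P₃ κ₃ t₃) (h12 : t₁ ≠ t₂) (h13 : t₁ ≠ t₃)
    (h23 : t₂ ≠ t₃) (s12 : Sp x₀ x₁ fun v => T.f P₁ P₂ v) (s13 : Sp x₀ x₁ fun v => T.f P₁ P₃ v)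
    (s23 : Sp x₀ x₁ fun v => T.f P₂ P₃ v) : (t₃ - t₂) * κ₁ = (t₁ - t₃) * κ₂ := by
  have hw : (t₂ - t₃) • P₁ + (t₃ - t₁) • P₂ + (t₁ - t₂) • P₃ = 0 := by
    by_contra hne
    obtain ⟨w, hw⟩ : ∃ w, w = (t₂ - t₃) • P₁ + (t₃ - t₁) • P₂ + (t₁ - t₂) • P₃ := ⟨_, rfl⟩
    rw [← hw] at hne
    have w0 : x₀ w = 0 := by
      rw [hw]
      simp only [map_add, map_smul, smul_eq_mul, h1.h0, h2.h0, h3.h0]
      ring
    have w1 : x₁ w = 0 := by
      rw [hw]
      simp only [map_add, map_smul, smul_eq_mul, h1.h1, h2.h1, h3.h1]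
      ring
    have z12 : T.f P₁ P₂ w = 0 := by
      obtain ⟨a, b, hab⟩ := s12
      exact (hab w).trans (by rw [w0, w1]; ring)
    have z13 : T.f P₁ P₃ w = 0 := by
      obtain ⟨a, b, hab⟩ := s13
      exact (hab w).trans (by rw [w0, w1]; ring)
    have z23 : T.f P₂ P₃ w = 0 := by
      obtain ⟨a, b, hab⟩ := s23
      exact (hab w).trans (by rw [w0, w1]; ring)
    have z11 : T.f P₁ P₁ w = 0 := by
      rw [h1.hT, w0, w1]
      ring
    have z22 : T.f P₂ P₂ w = 0 := by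
      rw [h2.hT, w0, w1]
      ring
    have hsp : Sp x₀ x₁ fun v => T.f w w v := by
      obtain ⟨a, b, hab⟩ := s12
      obtain ⟨a', b', hab'⟩ := s13
      obtain ⟨a'', b'', hab''⟩ := s23
      refine ⟨-(t₂ - t₃) ^ 2 * κ₁ * t₁ - (t₃ - t₁) ^ 2 * κ₂ * t₂ - (t₁ - t₂) ^ 2 * κ₃ * t₃ +
        2 * (t₂ - t₃) * (t₃ - t₁) * a + 2 * (t₂ - t₃) * (t₁ - t₂) * a' +
        2 * (t₃ - t₁) * (t₁ - t₂) * a'', (t₂ - t₃) ^ 2 * κ₁ + (t₃ - t₁) ^ 2 * κ₂ +
        (t₁ - t₂) ^ 2 * κ₃ + 2 * (t₂ - t₃) * (t₃ - t₁) * b + 2 * (t₂ - t₃) * (t₁ - t₂) * b' +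
        2 * (t₃ - t₁) * (t₁ - t₂) * b'', fun v => ?_⟩
      have g1 := hab v
      have g2 := hab' v
      have g3 := hab'' v
      simp only at g1 g2 g3 ⊢
      rw [hw]
      simp only [map_add, map_smul, LinearMap.add_apply, LinearMap.smul_apply, smul_eq_mul]
      rw [T.s12 P₂ P₁ v, T.s12 P₃ P₁ v, T.s12 P₃ P₂ v, g1, g2, g3, h1.hT v, h2.hT v, h3.hT v]
      ring
    obtain ⟨a, b, hab⟩ := hsp
    have y1 : a + b * t₁ = 0 := by
      have g := hab P₁
      simp only at g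
      rw [T.s23 w w P₁, T.s12 w P₁ w, h1.h0, h1.h1] at g
      have g' : T.f P₁ w w = 0 := by
        rw [T.s23]
        nth_rewrite 1 [hw]
        simp only [map_add, map_smul, LinearMap.add_apply, LinearMap.smul_apply, smul_eq_mul,
          z11, z12, z13]
        ring
      rw [g'] at g
      linear_combination -g
    have y2 : a + b * t₂ = 0 := by
      have g := hab P₂
      simp only at g
      rw [T.s23 w w P₂, T.s12 w P₂ w, h2.h0, h2.h1] at g
      have g' : T.f P₂ w w = 0 := by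
        nth_rewrite 1 [hw]
        simp only [map_add, map_smul, LinearMap.add_apply, LinearMap.smul_apply, smul_eq_mul]
        rw [T.s12 P₂ P₁ w, z12, z22, z23]
        ring
      rw [g'] at g
      linear_combination -g
    have hb : b = 0 := by
      have : b * (t₁ - t₂) = 0 := by linear_combination y1 - y2
      exact (mul_eq_zero.1 this).resolve_right (sub_ne_zero.2 h12)
    have ha : a = 0 := by
      rw [hb, zero_mul, add_zero] at y1
      exact y1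
    obtain ⟨v, hv⟩ := hS w hne
    apply hv
    have := hab v
    simp only at this
    rw [this, ha, hb]
    ring
  have hP₃ : (t₁ - t₂) • P₃ = (t₃ - t₂) • P₁ + (t₁ - t₃) • P₂ := by
    have e : (t₃ - t₂) • P₁ + (t₁ - t₃) • P₂ =
        (t₁ - t₂) • P₃ - ((t₂ - t₃) • P₁ + (t₃ - t₁) • P₂ + (t₁ - t₂) • P₃) := by
      module
    rw [e, hw, sub_zero]
  have hF : T.f ((t₁ - t₂) • P₃) ((t₁ - t₂) • P₃) ((t₁ - t₂) • P₃) = 0 := by
    simp only [map_smul, LinearMap.smul_apply, smul_eq_mul, h3.zero, mul_zero]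
  have e1 : T.f P₁ P₁ P₂ = κ₁ * (t₂ - t₁) := by rw [h1.hT, h2.h0, h2.h1, mul_one]
  have e2 : T.f P₁ P₂ P₂ = κ₂ * (t₁ - t₂) := by rw [rot T P₁ P₂ P₂, h2.hT, h1.h0, h1.h1, mul_one]
  rw [hP₃, cub, h1.zero, h2.zero, e1, e2] at hF
  have hF' : 3 * (t₃ - t₂) * (t₁ - t₃) * (t₂ - t₁) * ((t₃ - t₂) * κ₁ - (t₁ - t₃) * κ₂) = 0 := by
    linear_combination hF
  have n3 : (3 : K) ≠ 0 := by norm_num
  exact sub_eq_zero.1 ((mul_eq_zero.1 hF').resolve_left (mul_ne_zero (mul_ne_zero (mul_ne_zero n3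
    (sub_ne_zero.2 h23.symm)) (sub_ne_zero.2 h13)) (sub_ne_zero.2 h12.symm)))

/-- an odd choice of signs -/
lemma exists_sign (K : Type) [Field K] [CharZero K] :
    ∃ s : K → Prop, ∀ c : K, c ≠ 0 → ¬ (s c ↔ s (-c)) := by
  refine ⟨fun c => WellOrderingRel c (-c), fun c hc h => ?_⟩
  simp only [neg_neg] at h
  have hne : c ≠ -c := by
    intro h0
    have : (2 : K) * c = 0 := by linear_combination h0
    exact hc ((mul_eq_zero.1 this).resolve_left (by norm_num))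
  rcases trichotomous_of (WellOrderingRel (α := K)) c (-c) with h1 | h1 | h1
  · exact asymm_of _ h1 (h.1 h1)
  · exact hne h1
  · exact asymm_of _ h1 (h.2 h1)

/-- **Critical zeros off finitely many hyperplanes take finitely many values.** -/
theorem crit_cover (hS : NoSing T) (L : Set (V →ₗ[K] K)) (hL : L.Finite)
    (hcl : ∀ R, R ≠ 0 → T.f R R R = 0 → (∀ y ∈ L, y R ≠ 0) → Sp x₀ x₁ fun v => T.f R R v) :
    {t : K | ∃ P, x₀ P = 1 ∧ x₁ P = t ∧ T.f P P P = 0 ∧ ∀ y ∈ L, y P ≠ 0}.Finite := by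
  by_contra hinf
  set S : Set K := {t : K | ∃ P, x₀ P = 1 ∧ x₁ P = t ∧ T.f P P P = 0 ∧ ∀ y ∈ L, y P ≠ 0} with hSdef
  have hch : ∀ t : S, ∃ P κ, CP T x₀ x₁ P κ t ∧ ∀ y ∈ L, y P ≠ 0 := by
    rintro ⟨t, P, h0, h1, h2, h3⟩
    have hP : P ≠ 0 := by
      rintro rfl
      rw [map_zero] at h0
      exact zero_ne_one h0
    obtain ⟨a, b, hab⟩ := hcl P hP h2 h3
    simp only at hab
    have h4 := hab P
    rw [h2, h0, h1] at h4
    have ha : a = -(b * t) := by linear_combination -h4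
    refine ⟨P, b, ⟨h0, h1, ?_, fun v => ?_⟩, h3⟩
    · intro hb
      obtain ⟨v, hv⟩ := hS P hP
      rw [hab, ha, hb] at hv
      apply hv
      ring
    · rw [hab, ha]
      ring
  choose P κ hCP hy using hch
  obtain ⟨sg, hsg⟩ := exists_sign K
  have : Finite L := hL
  have : Infinite S := Set.infinite_coe_iff.2 hinf
  obtain ⟨σ, hσ⟩ := Finite.exists_infinite_fiber (fun t : S => fun y : L => sg (y.1 (P t) / κ t))
  have hσ' : Infinite ((fun t : S => fun y : L => sg (y.1 (P t) / κ t)) ⁻¹' {σ}) := hσ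
  set em := Infinite.natEmbedding ((fun t : S => fun y : L => sg (y.1 (P t) / κ t)) ⁻¹' {σ})
    with hem
  have hne : ∀ i j : ℕ, i ≠ j → ((em i).1 : K) ≠ ((em j).1 : K) := by
    intro i j hij h
    exact hij (em.injective (Subtype.ext (Subtype.ext h)))
  have hsp : ∀ i j : ℕ, i ≠ j → Sp x₀ x₁ fun v => T.f (P (em i).1) (P (em j).1) v := by
    intro i j hij
    refine (hCP (em i).1).two (hCP (em j).1) (hne i j hij) hcl fun y hyL h0 => ?_
    have h1 : (fun y : L => sg (y.1 (P (em i).1) / κ (em i).1)) = σ := (em i).2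
    have h2 : (fun y : L => sg (y.1 (P (em j).1) / κ (em j).1)) = σ := (em j).2
    have h3 := congrFun (h1.trans h2.symm) ⟨y, hyL⟩
    simp only at h3
    have h4 : y (P (em j).1) / κ (em j).1 = -(y (P (em i).1) / κ (em i).1) := by
      linear_combination h0
    rw [h4] at h3
    exact hsg _ (div_ne_zero (hy _ y hyL) (hCP _).hκ) (by rw [← h3])
  have k3 := CP.three hS (hCP (em 0).1) (hCP (em 1).1) (hCP (em 2).1) (hne _ _ (by decide))
    (hne _ _ (by decide)) (hne _ _ (by decide)) (hsp _ _ (by decide)) (hsp _ _ (by decide))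
    (hsp _ _ (by decide))
  have k4 := CP.three hS (hCP (em 0).1) (hCP (em 1).1) (hCP (em 3).1) (hne _ _ (by decide))
    (hne _ _ (by decide)) (hne _ _ (by decide)) (hsp _ _ (by decide)) (hsp _ _ (by decide))
    (hsp _ _ (by decide))
  have n23 := hne 2 3 (by decide)
  have n01 := hne 0 1 (by decide)
  have hκ := (hCP (em 0).1).hκ
  generalize ((em 0).1 : K) = t₀ at *
  generalize ((em 1).1 : K) = t₁ at *
  generalize ((em 2).1 : K) = t₂ at *
  generalize ((em 3).1 : K) = t₃ at *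
  generalize κ (em 0).1 = κ₀ at *
  generalize κ (em 1).1 = κ₁ at *
  have h1 : (t₂ - t₃) * (κ₀ + κ₁) = 0 := by linear_combination k3 - k4
  have h2 : κ₁ = -κ₀ := by
    have := (mul_eq_zero.1 h1).resolve_left (sub_ne_zero.2 n23)
    linear_combination this
  rw [h2] at k3
  have h3 : κ₀ * (t₀ - t₁) = 0 := by linear_combination k3
  rcases mul_eq_zero.1 h3 with h | h
  · exact hκ h
  · exact n01 (sub_eq_zero.1 h)

end Pool.Agent.TH783.CE
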