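import Mathlib

/-!
# Flat subsets of a field and functions polynomial along lines
-/

set_option autoImplicit false
set_option linter.unusedSectionVars false

namespace Pool.Agent.TH783.CE

open Polynomial

variable {K : Type} [Field K] [CharZero K]

/-- a rational function in one variable with all its values in `O` is constant -/
def Flat (O : Set K) : Prop := ∀ p₀ p₁ : K[X], p₀ ≠ 0 →
  (∀ s : K, p₀.eval s ≠ 0 → p₁.eval s / p₀.eval s ∈ O) → ∃ c : K, p₁ = C c * p₀

/-- polynomial along lines -/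
def PolyLine {V : Type} [AddCommGroup V] [Module K V] (f : V → K) : Prop :=
  ∀ w v : V, ∃ p : K[X], ∀ s : K, f (w + s • v) = p.eval s

section

variable {V : Type} [AddCommGroup V] [Module K V]

theorem PolyLine.lin (l : V →ₗ[K] K) : PolyLine fun w => l w := fun w v =>
  ⟨C (l w) + C (l v) * X, fun s => by
    simp only [map_add, map_smul, smul_eq_mul, eval_add, eval_mul, eval_C, eval_X]
    ring⟩

theorem PolyLine.const (c : K) : PolyLine fun _ : V => c := fun _ _ => ⟨C c, fun s => by simp⟩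

theorem PolyLine.add {f g : V → K} (hf : PolyLine f) (hg : PolyLine g) :
    PolyLine fun w => f w + g w := fun w v => by
  obtain ⟨p, hp⟩ := hf w v
  obtain ⟨q, hq⟩ := hg w v
  exact ⟨p + q, fun s => by
    show f _ + g _ = _
    rw [hp, hq, eval_add]⟩

theorem PolyLine.sub {f g : V → K} (hf : PolyLine f) (hg : PolyLine g) :
    PolyLine fun w => f w - g w := fun w v => by
  obtain ⟨p, hp⟩ := hf w v
  obtain ⟨q, hq⟩ := hg w v
  exact ⟨p - q, fun s => by
    show f _ - g _ = _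
    rw [hp, hq, eval_sub]⟩

theorem PolyLine.mul {f g : V → K} (hf : PolyLine f) (hg : PolyLine g) :
    PolyLine fun w => f w * g w := fun w v => by
  obtain ⟨p, hp⟩ := hf w v
  obtain ⟨q, hq⟩ := hg w v
  exact ⟨p * q, fun s => by
    show f _ * g _ = _
    rw [hp, hq, eval_mul]⟩

theorem PolyLine.bil (B : V →ₗ[K] V →ₗ[K] K) : PolyLine fun w => B w w := fun w v =>
  ⟨C (B w w) + C (B w v + B v w) * X + C (B v v) * X ^ 2, fun s => by
    simp only [map_add, map_smul, LinearMap.add_apply, LinearMap.smul_apply, smul_eq_mul,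
      eval_add, eval_mul, eval_C, eval_X, eval_pow]
    ring⟩

theorem PolyLine.tri (T : V →ₗ[K] V →ₗ[K] V →ₗ[K] K) : PolyLine fun w => T w w w := fun w v =>
  ⟨C (T w w w) + C (T w w v + T w v w + T v w w) * X + C (T w v v + T v w v + T v v w) * X ^ 2
    + C (T v v v) * X ^ 3, fun s => by
    simp only [map_add, map_smul, LinearMap.add_apply, LinearMap.smul_apply, smul_eq_mul,
      eval_add, eval_mul, eval_C, eval_X, eval_pow]
    ring⟩

theorem PolyLine.comp {W : Type} [AddCommGroup W] [Module K W] {f : V → K} (hf : PolyLine f)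
    (g : W →ₗ[K] V) : PolyLine fun w => f (g w) := fun w v => by
  obtain ⟨p, hp⟩ := hf (g w) (g v)
  exact ⟨p, fun s => by
    show f (g _) = _
    rw [map_add, map_smul, hp]⟩

theorem PolyLine.mul_zero {f g : V → K} (hf : PolyLine f) (hg : PolyLine g)
    (h : ∀ w, f w = 0 ∨ g w = 0) : (∀ w, f w = 0) ∨ ∀ w, g w = 0 := by
  by_contra hcon
  push Not at hcon
  obtain ⟨⟨w₁, h1⟩, ⟨w₂, h2⟩⟩ := hcon
  obtain ⟨p, hp⟩ := hf w₁ (w₂ - w₁)
  obtain ⟨q, hq⟩ := hg w₁ (w₂ - w₁)
  have hp0 : p ≠ 0 := by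
    rintro rfl
    have := hp 0
    rw [zero_smul, add_zero, eval_zero] at this
    exact h1 this
  have hq0 : q ≠ 0 := by
    rintro rfl
    have := hq 1
    rw [one_smul, add_sub_cancel, eval_zero] at this
    exact h2 this
  have h3 : p * q = 0 := by
    refine Polynomial.funext fun s => ?_
    rw [eval_mul, eval_zero, ← hp, ← hq]
    rcases h (w₁ + s • (w₂ - w₁)) with h | h
    · rw [h, zero_mul]
    · rw [h, MulZeroClass.mul_zero]
  exact (mul_ne_zero hp0 hq0) h3

/-- products of functions polynomial along lines on a subspace -/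
theorem PolyLine.mul_zero_on {f g : V → K} (hf : PolyLine f) (hg : PolyLine g)
    (N : Submodule K V) (h : ∀ w ∈ N, f w = 0 ∨ g w = 0) :
    (∀ w ∈ N, f w = 0) ∨ ∀ w ∈ N, g w = 0 := by
  rcases PolyLine.mul_zero (hf.comp N.subtype) (hg.comp N.subtype)
    (fun w => h w w.2) with h1 | h1
  · exact Or.inl fun w hw => h1 ⟨w, hw⟩
  · exact Or.inr fun w hw => h1 ⟨w, hw⟩

theorem prop_of {O : Set K} (hO : Flat O) (u₀ u₁ : V → K) (h0 : PolyLine u₀) (h1 : PolyLine u₁)
    (h : ∀ w, u₀ w ≠ 0 → u₁ w / u₀ w ∈ O) :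
    ∃ a b : K, (a ≠ 0 ∨ b ≠ 0) ∧ ∀ w, a * u₀ w + b * u₁ w = 0 := by
  by_cases hz : ∀ w, u₀ w = 0
  · exact ⟨1, 0, Or.inl one_ne_zero, fun w => by rw [hz w]; ring⟩
  push Not at hz
  obtain ⟨w₀, hw₀⟩ := hz
  refine ⟨-u₁ w₀, u₀ w₀, Or.inr hw₀, fun w => ?_⟩
  obtain ⟨p₀, hp0⟩ := h0 w₀ (w - w₀)
  obtain ⟨p₁, hp1⟩ := h1 w₀ (w - w₀)
  have e0 : w₀ + (0 : K) • (w - w₀) = w₀ := by
    rw [zero_smul, add_zero]
  have e1 : w₀ + (1 : K) • (w - w₀) = w := by
    rw [one_smul, add_sub_cancel]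
  have hne : p₀ ≠ 0 := by
    rintro rfl
    have := hp0 0
    rw [e0, eval_zero] at this
    exact hw₀ this
  obtain ⟨c, hc⟩ := hO p₀ p₁ hne (fun s hs => by
    rw [← hp0, ← hp1]
    exact h _ (by rw [hp0]; exact hs))
  have a0 := hp0 0
  have a1 := hp0 1
  have b0 := hp1 0
  have b1 := hp1 1
  rw [e0] at a0 b0
  rw [e1] at a1 b1
  rw [hc, eval_mul, eval_C] at b0 b1
  rw [b0, b1, a0, a1]
  ring

end

end Pool.Agent.TH783.CE
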