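import Pool.Agent.TH783.CE.Main

/-!
# Polynomials of degree at most three
-/

set_option autoImplicit false
set_option linter.unusedSectionVars false

namespace Pool.Agent.TH783.CE

open Pool.Agent.TH729.CV

variable {K : Type} [Field K] [CharZero K]

section

variable {V X : Type} [AddCommGroup V] [Module K V]

/-- sums -/
def sadd (F G : STri K V) : STri K V where
  f := F.f + G.f
  s12 a b c := by
    simp only [LinearMap.add_apply]
    rw [F.s12, G.s12]
  s23 a b c := by
    simp only [LinearMap.add_apply]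
    rw [F.s23, G.s23]

/-- multiples -/
def ssmul (t : K) (F : STri K V) : STri K V where
  f := t • F.f
  s12 a b c := by
    simp only [LinearMap.smul_apply]
    rw [F.s12]
  s23 a b c := by
    simp only [LinearMap.smul_apply]
    rw [F.s23]

/-- the product of three linear functionals, not symmetrized -/
def pr3 (p q r : V →ₗ[K] K) : V →ₗ[K] V →ₗ[K] V →ₗ[K] K :=
  LinearMap.mk₂ K (fun a b => (p a * q b) • r)
    (fun a a' b => by rw [map_add, add_mul, add_smul])
    (fun c a b => by rw [map_smul, smul_eq_mul, mul_assoc, mul_smul])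
    (fun a b b' => by rw [map_add, mul_add, add_smul])
    (fun c a b => by rw [map_smul, smul_eq_mul, mul_left_comm, mul_smul])

lemma pr3_apply (p q r : V →ₗ[K] K) (a b c : V) : pr3 p q r a b c = p a * q b * r c := rfl

/-- the product of three linear functionals -/
def sprod (p q r : V →ₗ[K] K) : STri K V where
  f := (1 / 6 : K) • (pr3 p q r + pr3 p r q + pr3 q p r + pr3 q r p + pr3 r p q + pr3 r q p)
  s12 a b c := by
    simp only [LinearMap.smul_apply, LinearMap.add_apply, pr3_apply, smul_eq_mul]
    ring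
  s23 a b c := by
    simp only [LinearMap.smul_apply, LinearMap.add_apply, pr3_apply, smul_eq_mul]
    ring

lemma sprod_apply (p q r : V →ₗ[K] K) (v : V) : (sprod p q r).f v v v = p v * q v * r v := by
  simp only [sprod, LinearMap.smul_apply, LinearMap.add_apply, pr3_apply, smul_eq_mul]
  ring

/-- representable functions -/
def Rep (φ : X → V) (g : X → K) : Prop := ∃ F : STri K V, ∀ x, F.f (φ x) (φ x) (φ x) = g x

lemma Rep.zero (φ : X → V) : Rep (K := K) φ fun _ => 0 := by
  refine ⟨ssmul 0 (sprod 0 0 0), fun x => ?_⟩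
  simp only [ssmul, zero_smul, LinearMap.zero_apply]

lemma Rep.add {φ : X → V} {f g : X → K} (hf : Rep φ f) (hg : Rep φ g) :
    Rep φ fun x => f x + g x := by
  obtain ⟨F, hF⟩ := hf
  obtain ⟨G, hG⟩ := hg
  refine ⟨sadd F G, fun x => ?_⟩
  simp only [sadd, LinearMap.add_apply, hF, hG]

lemma Rep.smul {φ : X → V} {f : X → K} (hf : Rep φ f) (t : K) : Rep φ fun x => t * f x := by
  obtain ⟨F, hF⟩ := hf
  refine ⟨ssmul t F, fun x => ?_⟩
  simp only [ssmul, LinearMap.smul_apply, hF, smul_eq_mul]

lemma Rep.sum {φ : X → V} {α : Type*} (s : Finset α) {f : α → X → K}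
    (h : ∀ a ∈ s, Rep φ (f a)) : Rep φ fun x => ∑ a ∈ s, f a x := by
  classical
  induction s using Finset.induction_on with
  | empty => simpa using Rep.zero φ
  | insert a s ha ih =>
    have : (fun x => ∑ b ∈ insert a s, f b x) = fun x => f a x + ∑ b ∈ s, f b x := by
      funext x; rw [Finset.sum_insert ha]
    rw [this]
    exact (h a (by simp)).add (ih fun b hb => h b (by simp [hb]))

lemma Rep.prod {φ : X → V} (p q r : V →ₗ[K] K) {f : X → K}
    (h : ∀ x, f x = p (φ x) * q (φ x) * r (φ x)) : Rep φ f :=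
  ⟨sprod p q r, fun x => by rw [sprod_apply, h]⟩

end

lemma prod_map_toMultiset {α M : Type*} [CommMonoid M] (d : α →₀ ℕ) (x : α → M) :
    (d.toMultiset.map x).prod = d.prod fun i k => x i ^ k := by
  classical
  induction d using Finsupp.induction_linear with
  | zero => simp
  | add f g hf hg =>
    rw [map_add, Multiset.map_add, Multiset.prod_add, hf, hg, Finsupp.prod_add_index']
    · intro i
      rw [pow_zero]
    · intro i a b
      rw [pow_add]
  | single a n =>
    rw [Finsupp.toMultiset_single, Multiset.map_nsmul, Multiset.prod_nsmul,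
      Multiset.map_singleton, Multiset.prod_singleton, Finsupp.prod_single_index]
    rw [pow_zero]

lemma eval_sum' {n : ℕ} (f : MvPolynomial (Fin n) K) (x : Fin n → K) :
    MvPolynomial.eval x f = ∑ d ∈ f.support, f.coeff d * (d.toMultiset.map x).prod := by
  rw [MvPolynomial.eval_eq]
  refine Finset.sum_congr rfl fun d _ => ?_
  rw [prod_map_toMultiset]
  rfl

/-- adding the coordinate one -/
def aug {n : ℕ} (x : Fin n → K) : Fin (n + 1) → K := Fin.cons 1 x

lemma aug_zero {n : ℕ} (x : Fin n → K) : aug x 0 = 1 := rfl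
lemma aug_succ {n : ℕ} (x : Fin n → K) (i : Fin n) : aug x i.succ = x i := rfl

/-- polynomials of degree at most three -/
theorem rep_affine {n : ℕ} (f : MvPolynomial (Fin n) K) (hf : f.totalDegree ≤ 3) :
    Rep (K := K) (aug : (Fin n → K) → (Fin (n + 1) → K)) (fun x => MvPolynomial.eval x f) := by
  rw [show (fun x => MvPolynomial.eval x f) = fun x =>
      ∑ d ∈ f.support, f.coeff d * (d.toMultiset.map x).prod from
    funext fun x => eval_sum' f x]
  refine Rep.sum _ fun d hd => Rep.smul ?_ _
  have hcard : Multiset.card d.toMultiset ≤ 3 := by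
    rw [Finsupp.card_toMultiset]
    exact (MvPolynomial.le_totalDegree hd).trans hf
  have h0 : Multiset.card d.toMultiset = 0 ∨ Multiset.card d.toMultiset = 1 ∨
      Multiset.card d.toMultiset = 2 ∨ Multiset.card d.toMultiset = 3 := by omega
  rcases h0 with h | h | h | h
  · rw [Multiset.card_eq_zero] at h
    refine Rep.prod (LinearMap.proj 0) (LinearMap.proj 0) (LinearMap.proj 0) fun x => ?_
    rw [h]
    simp [aug_zero]
  · obtain ⟨i, hi⟩ := Multiset.card_eq_one.1 h
    refine Rep.prod (LinearMap.proj i.succ) (LinearMap.proj 0) (LinearMap.proj 0) fun x => ?_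
    rw [hi]
    simp [aug_zero, aug_succ]
  · obtain ⟨i, j, hi⟩ := Multiset.card_eq_two.1 h
    refine Rep.prod (LinearMap.proj i.succ) (LinearMap.proj j.succ) (LinearMap.proj 0)
      fun x => ?_
    rw [hi]
    simp [aug_zero, aug_succ]
  · obtain ⟨i, j, k, hi⟩ := Multiset.card_eq_three.1 h
    refine Rep.prod (LinearMap.proj i.succ) (LinearMap.proj j.succ) (LinearMap.proj k.succ)
      fun x => ?_
    rw [hi]
    simp [aug_succ]
    ring

/-- **Affine form of the main theorem** -/
theorem thin_affine {O : Set K} (hO : Flat O) {n : ℕ} (f : MvPolynomial (Fin (n + 1)) K)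
    (hf : f.totalDegree ≤ 3)
    (h : ∀ (t : K) (z : Fin n → K), MvPolynomial.eval (Fin.cons t z) f = 0 → t ∈ O) :
    Thin {t : K | ∃ z : Fin n → K, MvPolynomial.eval (Fin.cons t z) f = 0} := by
  obtain ⟨T, hT⟩ := rep_affine f hf
  simp only at hT
  have hdec : ∀ P : Fin (n + 2) → K, P 0 ≠ 0 → T.f P P P = 0 →
      MvPolynomial.eval (Fin.cons (P 1 / P 0) fun i => P i.succ.succ / P 0) f = 0 := by
    intro P hP0 hP
    rw [← hT]
    have e : aug (Fin.cons (P 1 / P 0) fun i => P i.succ.succ / P 0) = (P 0)⁻¹ • P := by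
      funext i
      refine Fin.cases ?_ (fun i => ?_) i
      · rw [aug_zero, Pi.smul_apply, smul_eq_mul, inv_mul_cancel₀ hP0]
      · rw [aug_succ]
        refine Fin.cases ?_ (fun i => ?_) i
        · rw [Fin.cons_zero, Pi.smul_apply, smul_eq_mul, div_eq_inv_mul]
          rfl
        · rw [Fin.cons_succ, Pi.smul_apply, smul_eq_mul, div_eq_inv_mul]
    rw [e]
    simp only [map_smul, LinearMap.smul_apply, hP, smul_zero]
  have hVD : VD O T (LinearMap.proj 0) (LinearMap.proj 1) := by
    intro P hP hP0
    exact h _ _ (hdec P hP0 hP)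
  refine (thin_main hO _ _ T _ _ rfl hVD).mono ?_
  rintro t ⟨z, hz⟩
  refine ⟨aug (Fin.cons t z), ?_, ?_, ?_⟩
  · rw [hT, hz]
  · show aug (Fin.cons t z) 0 ≠ 0
    rw [aug_zero]
    exact one_ne_zero
  · show aug (Fin.cons t z) (Fin.succ 0) = t * aug (Fin.cons t z) 0
    rw [aug_succ, aug_zero, Fin.cons_zero, mul_one]

end Pool.Agent.TH783.CE
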