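import Mathlib

/-!
# Thin sets
-/

set_option autoImplicit false
set_option linter.unusedSectionVars false

namespace Pool.Agent.TH783.CE

open Polynomial

variable {K : Type} [Field K] [CharZero K]

/-- thin subsets of `K`: up to finitely many elements, the parameters `t` for which a monic
polynomial over `K[t]` without root in `K[t]` has a root in `K` -/
def Thin (D : Set K) : Prop := ∃ E : Set K, E.Finite ∧ ∃ G : K[X][X], G.Monic ∧
  (∀ g : K[X], G.eval g ≠ 0) ∧ ∀ t ∈ D, t ∈ E ∨ ∃ x, G.evalEval t x = 0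

lemma Thin.mono {D D' : Set K} (h : Thin D) (hD : D' ⊆ D) : Thin D' := by
  obtain ⟨E, hE, G, hG, hG', hD1⟩ := h
  exact ⟨E, hE, G, hG, hG', fun t ht => hD1 t (hD ht)⟩

lemma Thin.of_finite {D : Set K} (h : D.Finite) : Thin D :=
  ⟨D, h, 1, monic_one, fun g => by rw [eval_one]; exact one_ne_zero, fun t ht => Or.inl ht⟩

lemma Thin.union {D D' : Set K} (h : Thin D) (h' : Thin D') : Thin (D ∪ D') := by
  obtain ⟨E, hE, G, hG, hG', hD⟩ := h
  obtain ⟨F, hF, H, hH, hH', hD'⟩ := h'
  refine ⟨E ∪ F, hE.union hF, G * H, hG.mul hH, fun g => ?_, fun t ht => ?_⟩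
  · rw [eval_mul]
    exact mul_ne_zero (hG' g) (hH' g)
  · rcases ht with ht | ht
    · rcases hD t ht with h1 | ⟨x, hx⟩
      · exact Or.inl (Or.inl h1)
      · exact Or.inr ⟨x, by rw [evalEval_mul, hx, zero_mul]⟩
    · rcases hD' t ht with h1 | ⟨x, hx⟩
      · exact Or.inl (Or.inr h1)
      · exact Or.inr ⟨x, by rw [evalEval_mul, hx, mul_zero]⟩

lemma Thin.biUnion {α : Type*} {s : Set α} (hs : s.Finite) {D : α → Set K}
    (h : ∀ a ∈ s, Thin (D a)) : Thin (⋃ a ∈ s, D a) := by
  induction s, hs using Set.Finite.induction_on with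
  | empty =>
    refine Thin.of_finite ?_
    simp
  | insert ha hs ih =>
    rw [Set.biUnion_insert]
    exact (h _ (Set.mem_insert _ _)).union (ih fun b hb => h b (Set.mem_insert_of_mem _ hb))

end Pool.Agent.TH783.CE
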