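import Pool.Agent.TH783.CE.Cls
import Pool.Agent.TH783.CE.Thin

/-!
# Degenerate cubic forms and cubic forms in at most three variables
-/

set_option autoImplicit false
set_option linter.unusedSectionVars false

namespace Pool.Agent.TH783.CE

open Polynomial Pool.Agent.TH729.CV

variable {K V : Type} [Field K] [CharZero K] [AddCommGroup V] [Module K V] {T : STri K V}
  {x₀ x₁ : V →ₗ[K] K} {O : Set K}

/-- the values at the zeros -/
def DS (T : STri K V) (x₀ x₁ : V →ₗ[K] K) : Set K :=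
  {t | ∃ P, T.f P P P = 0 ∧ x₀ P ≠ 0 ∧ x₁ P = t * x₀ P}

lemma val_of {a b : K} (hab : a ≠ 0 ∨ b ≠ 0) {x₀ x₁ : V →ₗ[K] K} {P : V} {t : K} (h0 : x₀ P ≠ 0)
    (h1 : x₁ P = t * x₀ P) (h : a * x₀ P + b * x₁ P = 0) : t = -a / b := by
  have h2 : (a + b * t) * x₀ P = 0 := by
    rw [h1] at h
    linear_combination h
  have h3 := (mul_eq_zero.1 h2).resolve_right h0
  have hb : b ≠ 0 := by
    rintro rfl
    rw [zero_mul, add_zero] at h3
    rcases hab with h | h
    · exact h h3
    · exact h rfl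
  rw [eq_div_iff hb]
  linear_combination h3

/-- dependent functionals -/
lemma dep_case (h : ¬ Ind x₀ x₁) : Thin (DS T x₀ x₁) := by
  unfold Ind at h
  push Not at h
  obtain ⟨a, b, h1, h2⟩ := h
  refine Thin.of_finite ((Set.finite_singleton (-a / b)).subset ?_)
  rintro t ⟨P, -, h3, h4⟩
  refine val_of ?_ h3 h4 (h1 P)
  by_cases ha : a = 0
  · exact Or.inr (h2 ha)
  · exact Or.inl ha

/-- lines of zeros -/
lemma line_case (hO : Flat O) {u v : V}
    (h : ∀ s : K, x₀ (u + s • v) ≠ 0 → x₁ (u + s • v) / x₀ (u + s • v) ∈ O) (hu : x₀ u ≠ 0) :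
    ∃ c : K, x₁ u = c * x₀ u ∧ x₁ v = c * x₀ v := by
  obtain ⟨c, hc⟩ := hO (C (x₀ u) + C (x₀ v) * X) (C (x₁ u) + C (x₁ v) * X) (by
      intro h0
      have := congrArg (eval 0) h0
      simp at this
      exact hu this) (by
      intro s hs
      have h1 := h s
      simp only [map_add, map_smul, smul_eq_mul, eval_add, eval_mul, eval_C, eval_X] at h1 hs ⊢
      rw [mul_comm (x₀ v) s] at hs ⊢
      rw [mul_comm (x₁ v) s]
      exact h1 hs)
  have h1 := congrArg (eval 0) hc
  have h2 := congrArg (eval 1) hc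
  simp only [eval_add, eval_mul, eval_C, eval_X, mul_zero, add_zero, mul_one] at h1 h2
  exact ⟨c, h1, by linear_combination h2 - h1⟩

/-- quadrics -/
lemma quad_case (hO : Flat O) (B : V →ₗ[K] V →ₗ[K] K) (hB : ∀ u v, B u v = B v u)
    (h : ∀ P, B P P = 0 → x₀ P ≠ 0 → x₁ P / x₀ P ∈ O) :
    {t | ∃ P, B P P = 0 ∧ x₀ P ≠ 0 ∧ x₁ P = t * x₀ P}.Finite := by
  by_cases hP : ∃ P, B P P = 0 ∧ x₀ P ≠ 0
  swap
  · have : {t | ∃ P, B P P = 0 ∧ x₀ P ≠ 0 ∧ x₁ P = t * x₀ P} = ∅ := by
      rw [Set.eq_empty_iff_forall_notMem]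
      rintro t ⟨P, h1, h2, -⟩
      exact hP ⟨P, h1, h2⟩
    rw [this]
    exact Set.finite_empty
  obtain ⟨P, hP, hP0⟩ := hP
  have hpl : ∀ x : V →ₗ[K] K, PolyLine fun w => B w w * x P - 2 * B P w * x w :=
    fun x => ((PolyLine.bil B).mul (PolyLine.const (x P))).sub
      (((PolyLine.const 2).mul (PolyLine.lin (B P))).mul (PolyLine.lin x))
  obtain ⟨a, b, hab, hh⟩ := prop_of hO _ _ (hpl x₀) (hpl x₁) (by
      intro w hne
      have hx : ∀ x : V →ₗ[K] K, B w w * x P - 2 * B P w * x w =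
          x (B w w • P + (-(2 * B P w)) • w) := fun x => by
        rw [map_add, map_smul, map_smul, smul_eq_mul, smul_eq_mul]
        ring
      rw [hx] at hne
      rw [hx, hx]
      refine h _ ?_ hne
      simp only [map_add, map_smul, LinearMap.add_apply, LinearMap.smul_apply, smul_eq_mul]
      rw [hP, hB w P]
      ring)
  refine (Set.Finite.insert (x₁ P / x₀ P) (Set.finite_singleton (-a / b))).subset ?_
  rintro t ⟨w, hw, hw0, hw1⟩
  have h1 := hh w
  simp only [hw] at h1
  have h2 : B P w * (a * x₀ w + b * x₁ w) = 0 := by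
    have h3 : (2 : K) * (B P w * (a * x₀ w + b * x₁ w)) = 0 := by linear_combination -h1
    exact (mul_eq_zero.1 h3).resolve_left (by norm_num)
  rcases mul_eq_zero.1 h2 with h3 | h3
  · left
    obtain ⟨c, hc, hc'⟩ := line_case hO (x₀ := x₀) (x₁ := x₁) (u := P) (v := w) (by
      intro s hs
      refine h _ ?_ hs
      simp only [map_add, map_smul, LinearMap.add_apply, LinearMap.smul_apply, smul_eq_mul]
      rw [hP, hB w P, h3, hw]
      ring) hP0
    rw [hc, mul_div_cancel_right₀ _ hP0]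
    rw [hw1] at hc'
    exact mul_right_cancel₀ hw0 hc'
  · right
    exact val_of hab hw0 hw1 h3

/-- the cubic contains a hyperplane -/
lemma hyp_case (hO : Flat O) (h : VD O T x₀ x₁) (hN : ¬ NoHyp T) : Thin (DS T x₀ x₁) := by
  unfold NoHyp at hN
  push Not at hN
  obtain ⟨x, hx, hker⟩ := hN
  obtain ⟨e, he⟩ : ∃ e, x e = 1 := by
    obtain ⟨v, hv⟩ : ∃ v, x v ≠ 0 := by
      by_contra h0
      push Not at h0
      exact hx (LinearMap.ext h0)
    exact ⟨(x v)⁻¹ • v, by rw [map_smul, smul_eq_mul, inv_mul_cancel₀ hv]⟩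
  obtain ⟨a, b, hab, hh⟩ := prop_of hO _ _
    ((PolyLine.lin x₀).comp (LinearMap.ker x).subtype)
    ((PolyLine.lin x₁).comp (LinearMap.ker x).subtype) (by
      rintro ⟨w, hw⟩ hne
      simp only [Submodule.subtype_apply] at hne ⊢
      exact h w (hker w hw) hne)
  -- the quadratic factor
  set B : V →ₗ[K] V →ₗ[K] K := (3 : K) • T.f e - (3 / 2 : K) • x.smulRight (T.f e e) -
    (3 / 2 : K) • (T.f e e).smulRight x + T.f e e e • x.smulRight x with hBdef
  have hBv : ∀ u v, B u v = 3 * T.f e u v - 3 / 2 * (x u * T.f e e v) -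
      3 / 2 * (T.f e e u * x v) + T.f e e e * (x u * x v) := fun u v => by
    simp only [hBdef, LinearMap.add_apply, LinearMap.sub_apply, LinearMap.smul_apply,
      LinearMap.smulRight_apply, smul_eq_mul]
  have hBs : ∀ u v, B u v = B v u := fun u v => by
    rw [hBv, hBv, T.s23 e u v]
    ring
  have h3 := pol3 (T := T) (N := LinearMap.ker x) (fun w hw => hker w hw)
  have hfac : ∀ v, T.f v v v = x v * B v v := by
    intro v
    have hw : v - x v • e ∈ LinearMap.ker x := by
      rw [LinearMap.mem_ker, map_sub, map_smul, he, smul_eq_mul, mul_one, sub_self]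
    have h4 := hker _ hw
    have h5 := cub' T (-x v) v e
    rw [neg_smul, ← sub_eq_add_neg, h4] at h5
    rw [hBv]
    rw [rot' T v v e, rot T v e e] at h5
    linear_combination -h5
  have hq := quad_case (x₀ := x₀) (x₁ := x₁) hO B hBs (fun P hP => h P (by
    rw [hfac, hP, mul_zero]))
  refine Thin.of_finite ((hq.union (Set.finite_singleton (-a / b))).subset ?_)
  rintro t ⟨P, hP, hP0, hP1⟩
  rw [hfac] at hP
  rcases mul_eq_zero.1 hP with h4 | h4
  · right
    have h5 := hh ⟨P, h4⟩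
    simp only [Submodule.subtype_apply] at h5
    exact val_of hab hP0 hP1 h5
  · left
    exact ⟨P, h4, hP0, hP1⟩

/-- restriction to a subspace -/
def res (T : STri K V) (W : Submodule K V) : STri K W where
  f :=
    { toFun := fun a => (T.f a).compl₁₂ W.subtype W.subtype
      map_add' := fun a b => by
        ext
        simp
      map_smul' := fun c a => by
        ext
        simp }
  s12 a b c := T.s12 a b c
  s23 a b c := T.s23 a b c

lemma res_apply (T : STri K V) (W : Submodule K V) (a b c : W) : (res T W).f a b c = T.f a b c :=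
  rfl

lemma VD.res (h : VD O T x₀ x₁) (W : Submodule K V) :
    VD O (res T W) (x₀.domRestrict W) (x₁.domRestrict W) := fun P hP hP0 => h P hP hP0

/-- singular zeros -/
lemma sing_case (hO : Flat O) (h : VD O T x₀ x₁) (hN : NoHyp T) (hS : ¬ NoSing T)
    (hind : Ind x₀ x₁)
    (ih : ∀ y : V →ₗ[K] K, y ≠ 0 → Thin (DS (res T (LinearMap.ker y))
      (x₀.domRestrict (LinearMap.ker y)) (x₁.domRestrict (LinearMap.ker y)))) :
    Thin (DS T x₀ x₁) := by
  unfold NoSing at hS
  push Not at hS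
  obtain ⟨P, hP0, hP⟩ := hS
  obtain ⟨a, b, hab, hl⟩ := tangent hO h (hP P)
  obtain ⟨lam, hlv⟩ : ∃ lam : V →ₗ[K] K, ∀ v, a * x₀ v + b * x₁ v = lam v :=
    ⟨a • x₀ + b • x₁, fun v => rfl⟩
  simp only [hlv] at hl
  have hlam : lam ≠ 0 := by
    rintro rfl
    obtain ⟨h1, h2⟩ := hind a b (fun v => by rw [hlv, LinearMap.zero_apply])
    rcases hab with h | h
    · exact h h1
    · exact h h2
  have hlP : lam P = 0 := by
    by_contra hne
    obtain ⟨v, hv, hv'⟩ := hN lam hlam
    have h1 := hl v (hP v)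
    rw [hv, mul_zero] at h1
    rcases mul_eq_zero.1 h1 with h2 | h2
    · exact hne h2
    · exact hv' h2
  have hq : ∀ w, T.f P w w = 0 := by
    rcases (PolyLine.bil' T P).mul_zero (PolyLine.lin lam) (fun w => by
      have h1 := hl w (hP w)
      rw [hlP, zero_mul, mul_assoc] at h1
      exact mul_eq_zero.1 ((mul_eq_zero.1 h1.symm).resolve_left (by norm_num))) with h1 | h1
    · exact h1
    · exact (hlam (LinearMap.ext h1)).elim
  have hF : ∀ (w : V) (s : K), T.f (w + s • P) (w + s • P) (w + s • P) = T.f w w w := by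
    intro w s
    rw [cub', rot' T w w P, hq, rot T w P P, hP, hP]
    ring
  by_cases hx : x₀ P = 0 ∧ x₁ P = 0
  · obtain ⟨y, hy⟩ : ∃ y : V →ₗ[K] K, y P = 1 := by
      obtain ⟨y, hy⟩ : ∃ y : V →ₗ[K] K, y P ≠ 0 := by
        by_contra h0
        push Not at h0
        exact hP0 ((Module.forall_dual_apply_eq_zero_iff K P).1 h0)
      exact ⟨(y P)⁻¹ • y, by rw [LinearMap.smul_apply, smul_eq_mul, inv_mul_cancel₀ hy]⟩
    have hy0 : y ≠ 0 := by
      rintro rfl
      exact zero_ne_one hy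
    refine (ih y hy0).mono ?_
    rintro t ⟨Q, hQ, hQ0, hQ1⟩
    refine ⟨⟨Q + (-y Q) • P, ?_⟩, ?_, ?_, ?_⟩
    · rw [LinearMap.mem_ker, map_add, map_smul, hy, smul_eq_mul]
      ring
    · rw [res_apply]
      rw [hF, hQ]
    · rw [LinearMap.domRestrict_apply, map_add, map_smul, hx.1, smul_zero, add_zero]
      exact hQ0
    · rw [LinearMap.domRestrict_apply, LinearMap.domRestrict_apply, map_add, map_smul, map_add,
        map_smul, hx.1, hx.2, smul_zero, add_zero, add_zero]
      exact hQ1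
  · refine Thin.of_finite ((Set.finite_singleton (x₁ P / x₀ P)).subset ?_)
    rintro t ⟨Q, hQ, hQ0, hQ1⟩
    obtain ⟨c, hc, hc'⟩ := line_case hO (x₀ := x₀) (x₁ := x₁) (u := Q) (v := P) (by
      intro s hs
      refine h _ ?_ hs
      rw [hF, hQ]) hQ0
    have hP0 : x₀ P ≠ 0 := by
      intro h0
      rw [h0, mul_zero] at hc'
      exact hx ⟨h0, hc'⟩
    rw [hQ1] at hc
    show t = _
    rw [hc', mul_div_cancel_right₀ _ hP0]
    exact mul_right_cancel₀ hQ0 hc

end Pool.Agent.TH783.CE
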