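import Pool.Agent.TH783.CE.Low

/-!
# Cubic forms in at most three variables
-/

set_option autoImplicit false
set_option linter.unusedSectionVars false

namespace Pool.Agent.TH783.CE

open Polynomial Pool.Agent.TH729.CV

variable {K V : Type} [Field K] [CharZero K] [AddCommGroup V] [Module K V] {T : STri K V}
  {x₀ x₁ : V →ₗ[K] K} {O : Set K}

/-- dual vectors -/
lemma dual_vectors (hind : Ind x₀ x₁) : ∃ p₀ p₁ : V, x₀ p₀ = 1 ∧ x₁ p₀ = 0 ∧ x₀ p₁ = 0 ∧
    x₁ p₁ = 1 := by
  obtain ⟨u, hu⟩ : ∃ u, x₀ u = 1 := by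
    obtain ⟨v, hv⟩ : ∃ v, x₀ v ≠ 0 := by
      by_contra h0
      push Not at h0
      exact one_ne_zero (hind 1 0 fun v => by rw [h0]; ring).1
    exact ⟨(x₀ v)⁻¹ • v, by rw [map_smul, smul_eq_mul, inv_mul_cancel₀ hv]⟩
  obtain ⟨v, hv⟩ : ∃ v, -x₁ u * x₀ v + 1 * x₁ v ≠ 0 := by
    by_contra h0
    push Not at h0
    exact one_ne_zero (hind _ 1 h0).2
  obtain ⟨p₁, h1, h2⟩ : ∃ p₁, x₀ p₁ = 0 ∧ x₁ p₁ = 1 := by
    refine ⟨(-x₁ u * x₀ v + 1 * x₁ v)⁻¹ • (v - x₀ v • u), ?_, ?_⟩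
    · rw [map_smul, map_sub, map_smul, hu, smul_eq_mul, smul_eq_mul, mul_one, sub_self, mul_zero]
    · rw [map_smul, map_sub, map_smul, smul_eq_mul, smul_eq_mul]
      rw [show x₁ v - x₀ v * x₁ u = -x₁ u * x₀ v + 1 * x₁ v by ring, inv_mul_cancel₀ hv]
  refine ⟨u - x₁ u • p₁, p₁, ?_, ?_, h1, h2⟩
  · rw [map_sub, map_smul, h1, smul_zero, sub_zero, hu]
  · rw [map_sub, map_smul, h2, smul_eq_mul, mul_one, sub_self]

/-- flatness excludes a parametrisation of almost all elements -/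
lemma Flat.no_all (hO : Flat O) {q : K[X]} (hq : q ≠ 0) : ¬ ∀ t : K, q.eval t ≠ 0 → t ∈ O := by
  intro h
  obtain ⟨c, hc⟩ := hO q (X * q) hq (fun s hs => by
    rw [eval_mul, eval_X, mul_div_cancel_right₀ _ hs]
    exact h s hs)
  have h1 : (X : K[X]) = C c := mul_right_cancel₀ hq hc
  exact X_ne_C c h1

lemma evalEval_eval (G : K[X][X]) (g : K[X]) (t : K) :
    G.evalEval t (g.eval t) = (G.eval g).eval t := by
  have h1 : (G.eval g).eval t = evalRingHom t (G.eval g) := rfl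
  rw [h1, ← eval₂_at_apply, eval₂_evalRingHom]
  rfl

lemma coef4 {c₀ c₁ c₂ c₃ : K} (h : ∀ s : K, c₀ + c₁ * s + c₂ * s ^ 2 + c₃ * s ^ 3 = 0) :
    c₀ = 0 ∧ c₁ = 0 ∧ c₂ = 0 ∧ c₃ = 0 := by
  have h0 := h 0
  have e0 : c₀ = 0 := by linear_combination h0
  have h1 := h 1
  have h2 := h (-1)
  have h3 := h 2
  have e1 : (6 : K) * c₁ = 0 := by linear_combination 6 * h1 - 2 * h2 - h3 - 3 * e0
  have e2 : (2 : K) * c₂ = 0 := by linear_combination h1 + h2 - 2 * e0
  have e3 : c₁ = 0 := (mul_eq_zero.1 e1).resolve_left (by norm_num)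
  have e4 : c₂ = 0 := (mul_eq_zero.1 e2).resolve_left (by norm_num)
  refine ⟨e0, e3, e4, ?_⟩
  rw [e3, e4, e0] at h1
  linear_combination h1

/-- at most three variables -/
theorem low_case [FiniteDimensional K V] (hd : Module.finrank K V ≤ 3) (hO : Flat O)
    (h : VD O T x₀ x₁) (hN : NoHyp T) (hS : NoSing T) (hind : Ind x₀ x₁) :
    Thin (DS T x₀ x₁) := by
  obtain ⟨p₀, p₁, a00, a10, a01, a11⟩ := dual_vectors hind
  -- the kernel
  obtain ⟨e, he0, he1, he⟩ : ∃ e, x₀ e = 0 ∧ x₁ e = 0 ∧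
      ∀ w, x₀ w = 0 → x₁ w = 0 → ∃ c : K, w = c • e := by
    have k1 := LinearMap.finrank_range_add_finrank_ker (x₀.prod x₁)
    have k2 : LinearMap.range (x₀.prod x₁) = ⊤ := by
      rw [LinearMap.range_eq_top]
      rintro ⟨a, b⟩
      refine ⟨a • p₀ + b • p₁, ?_⟩
      simp [a00, a10, a01, a11]
    rw [k2, finrank_top, Module.finrank_prod, Module.finrank_self] at k1
    have k3 : Module.finrank K (LinearMap.ker (x₀.prod x₁)) ≤ 1 := by omega
    obtain ⟨⟨e, he⟩, hall⟩ := finrank_le_one_iff.1 k3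
    have hm : ∀ w, w ∈ LinearMap.ker (x₀.prod x₁) ↔ x₀ w = 0 ∧ x₁ w = 0 := by
      intro w
      simp [LinearMap.mem_ker]
    refine ⟨e, ((hm e).1 he).1, ((hm e).1 he).2, fun w h0 h1 => ?_⟩
    obtain ⟨c, hc⟩ := hall ⟨w, (hm w).2 ⟨h0, h1⟩⟩
    exact ⟨c, (congrArg Subtype.val hc).symm⟩
  -- coordinates
  have hcoord : ∀ v, ∃ s : K, v = x₀ v • p₀ + x₁ v • p₁ + s • e := by
    intro v
    obtain ⟨c, hc⟩ := he (v - (x₀ v • p₀ + x₁ v • p₁)) (by simp [a00, a01]) (by simp [a10, a11])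
    refine ⟨c, ?_⟩
    rw [← hc]
    abel
  have hpt : ∀ t ∈ DS T x₀ x₁, ∃ s : K,
      T.f (p₀ + t • p₁ + s • e) (p₀ + t • p₁ + s • e) (p₀ + t • p₁ + s • e) = 0 := by
    rintro t ⟨P, hP, hP0, hP1⟩
    obtain ⟨s, hs⟩ := hcoord P
    refine ⟨s / x₀ P, ?_⟩
    have e1 : p₀ + t • p₁ + (s / x₀ P) • e = (x₀ P)⁻¹ • P := by
      nth_rewrite 3 [hs]
      rw [smul_add, smul_add, smul_smul, smul_smul, smul_smul, inv_mul_cancel₀ hP0, one_smul, hP1]
      congr 2
      · congr 1
        field_simp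
      · field_simp
    rw [e1]
    simp only [map_smul, LinearMap.smul_apply, hP, smul_zero]
  have hval : ∀ t s : K,
      T.f (p₀ + t • p₁ + s • e) (p₀ + t • p₁ + s • e) (p₀ + t • p₁ + s • e) = 0 → t ∈ O := by
    intro t s hs
    have e0 : x₀ (p₀ + t • p₁ + s • e) = 1 := by simp [a00, a01, he0]
    have e1 : x₁ (p₀ + t • p₁ + s • e) = t := by simp [a10, a11, he1]
    have := h _ hs (by rw [e0]; exact one_ne_zero)
    rwa [e0, e1, div_one] at this
  -- the coefficients as polynomials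
  set D : K[X] := C (T.f p₀ p₀ p₀) + C (3 * T.f p₀ p₀ p₁) * X + C (3 * T.f p₀ p₁ p₁) * X ^ 2 +
    C (T.f p₁ p₁ p₁) * X ^ 3 with hD
  set Q : K[X] := C (T.f e p₀ p₀) + C (2 * T.f e p₀ p₁) * X + C (T.f e p₁ p₁) * X ^ 2 with hQ
  set B : K[X] := C (T.f e e p₀) + C (T.f e e p₁) * X with hB
  have hexp : ∀ t s : K,
      T.f (p₀ + t • p₁ + s • e) (p₀ + t • p₁ + s • e) (p₀ + t • p₁ + s • e) =
        D.eval t + 3 * Q.eval t * s + 3 * B.eval t * s ^ 2 + T.f e e e * s ^ 3 := by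
    intro t s
    rw [cub', cub', rot' T (p₀ + t • p₁) (p₀ + t • p₁) e, squ', rot T (p₀ + t • p₁) e e]
    simp only [hD, hQ, hB, map_add, map_smul, eval_add, eval_mul, eval_C, eval_X, eval_pow,
      smul_eq_mul]
    ring
  by_cases hA : T.f e e e = 0
  swap
  · -- the vector `e` is no zero
    set A := T.f e e e with hAdef
    set G : K[X][X] := X ^ 3 + (C (C (3 / A) * B) * X ^ 2 + C (C (3 / A) * Q) * X +
      C (C (1 / A) * D)) with hG
    have hGe : ∀ t s : K, G.evalEval t s = A⁻¹ *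
        (D.eval t + 3 * Q.eval t * s + 3 * B.eval t * s ^ 2 + A * s ^ 3) := by
      intro t s
      simp only [hG, evalEval_add, evalEval_mul, evalEval_pow, evalEval_X, evalEval_C, eval_mul,
        eval_C]
      field_simp
      ring
    refine ⟨∅, Set.finite_empty, G, ?_, fun g hg => ?_, fun t ht => ?_⟩
    · refine monic_X_pow_add ?_
      exact degree_quadratic_lt
    · refine hO.no_all (q := 1) one_ne_zero fun t _ => ?_
      refine hval t (g.eval t) ?_
      rw [hexp]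
      have h1 : G.evalEval t (g.eval t) = 0 := by
        rw [evalEval_eval, hg, eval_zero]
      rw [hGe] at h1
      exact (mul_eq_zero.1 h1).resolve_left (inv_ne_zero hA)
    · right
      obtain ⟨s, hs⟩ := hpt t ht
      refine ⟨s, ?_⟩
      rw [hexp] at hs
      rw [hGe, hs, mul_zero]
  rw [hA] at hexp
  by_cases he' : e = 0
  · -- two variables
    have hQ0 : ∀ t : K, T.f (p₀ + t • p₁) (p₀ + t • p₁) (p₀ + t • p₁) = D.eval t := by
      intro t
      have := hexp t 0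
      rw [zero_smul, add_zero] at this
      rw [this]
      ring
    have hD0 : D ≠ 0 := by
      intro h0
      obtain ⟨v, hv, hv'⟩ := hN x₀ (by
        rintro rfl
        rw [LinearMap.zero_apply] at a00
        exact zero_ne_one a00)
      obtain ⟨s, hs⟩ := hcoord v
      rw [hv, he', smul_zero, add_zero, zero_smul, zero_add] at hs
      have c4 := coef4 (c₀ := T.f p₀ p₀ p₀) (c₁ := 3 * T.f p₀ p₀ p₁) (c₂ := 3 * T.f p₀ p₁ p₁)
        (c₃ := T.f p₁ p₁ p₁) (fun s => by
          have := congrArg (eval s) h0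
          simpa [hD] using this)
      rw [hs] at hv'
      apply hv'
      simp only [map_smul, LinearMap.smul_apply, c4.2.2.2, smul_zero]
    classical
    refine Thin.of_finite ((D.roots.toFinset.finite_toSet).subset ?_)
    intro t ht
    obtain ⟨s, hs⟩ := hpt t ht
    rw [he', smul_zero, add_zero, hQ0] at hs
    simp only [Finset.mem_coe, Multiset.mem_toFinset]
    exact (mem_roots hD0).2 hs
  · have hB0 : B ≠ 0 := by
      intro h0
      obtain ⟨v, hv⟩ := hS e he'
      obtain ⟨s, hs⟩ := hcoord v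
      have b0 := congrArg (eval 0) h0
      have b1 := congrArg (eval 1) h0
      simp only [hB, eval_add, eval_mul, eval_C, eval_X, mul_zero, add_zero, mul_one,
        eval_zero] at b0 b1
      rw [b0, zero_add] at b1
      apply hv
      rw [hs, map_add, map_add, map_smul, map_smul, map_smul, b0, b1, hA]
      simp
    set G : K[X][X] := X ^ 2 + (C (3 * Q) * X + C (3 * B * D)) with hG
    have hGe : ∀ t s : K, G.evalEval t s = s ^ 2 + 3 * Q.eval t * s + 3 * B.eval t * D.eval t := by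
      intro t s
      simp only [hG, evalEval_add, evalEval_mul, evalEval_pow, evalEval_X, evalEval_C, eval_mul,
        eval_ofNat]
      ring
    refine ⟨∅, Set.finite_empty, G, ?_, fun g hg => ?_, fun t ht => ?_⟩
    · refine monic_X_pow_add ?_
      exact degree_linear_le.trans_lt (by norm_num)
    · refine hO.no_all hB0 fun t ht => ?_
      have h3B : 3 * B.eval t ≠ 0 := mul_ne_zero (by norm_num) ht
      obtain ⟨s, hs⟩ : ∃ s, 3 * B.eval t * s = g.eval t :=
        ⟨g.eval t / (3 * B.eval t), mul_div_cancel₀ _ h3B⟩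
      refine hval t s ?_
      rw [hexp]
      have h1 : G.evalEval t (g.eval t) = 0 := by
        rw [evalEval_eval, hg, eval_zero]
      rw [hGe, ← hs] at h1
      refine (mul_eq_zero.1 (?_ : 3 * B.eval t * _ = 0)).resolve_left h3B
      linear_combination h1
    · right
      obtain ⟨s, hs⟩ := hpt t ht
      refine ⟨3 * B.eval t * s, ?_⟩
      rw [hexp] at hs
      rw [hGe]
      linear_combination 3 * B.eval t * hs

end Pool.Agent.TH783.CE
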