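import Pool.Agent.TH783.CE.Cls2
import Pool.Agent.TH783.CE.Crit
import Pool.Agent.TH783.CE.Low3

/-!
# Values of a quotient of linear forms at the zeros of a cubic form, contained in a flat set
-/

set_option autoImplicit false
set_option linter.unusedSectionVars false

namespace Pool.Agent.TH783.CE

open Polynomial Pool.Agent.TH729.CV

section

variable {K V : Type} [Field K] [CharZero K] [AddCommGroup V] [Module K V] {T : STri K V}
  {x₀ x₁ : V →ₗ[K] K} {O : Set K}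

/-- zeros with data lie in finitely many hyperplanes -/
theorem dat_cover [FiniteDimensional K V] (hd : 4 ≤ Module.finrank K V) (hN : NoHyp T)
    (hS : NoSing T) : ∃ L : Set (V →ₗ[K] K), L.Finite ∧ (∀ y ∈ L, y ≠ 0) ∧
      ∀ P x, Dat T P x → ∃ y ∈ L, y P = 0 := by
  by_cases h0 : ∃ P₀ x₀, Dat T P₀ x₀
  swap
  · exact ⟨∅, Set.finite_empty, by simp, fun P x h => (h0 ⟨P, x, h⟩).elim⟩
  obtain ⟨P₀, x₀, h0⟩ := h0
  obtain ⟨L₀, g0, g1, g2⟩ := meet_cover hN hS h0
  by_cases h1 : ∃ P₁ x₁, Dat T P₁ x₁ ∧ ¬ Meet T P₀ x₀ P₁ x₁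
  swap
  · push Not at h1
    exact ⟨L₀, g0, g1, fun P x h => g2 P x h (h1 P x h)⟩
  obtain ⟨P₁, x₁, h1, h01⟩ := h1
  obtain ⟨L₁, k0, k1, k2⟩ := meet_cover hN hS h1
  refine ⟨L₀ ∪ L₁, g0.union k0, ?_, fun P x h => ?_⟩
  · rintro y (hy | hy)
    · exact g1 y hy
    · exact k1 y hy
  by_cases e0 : Meet T P₀ x₀ P x
  · obtain ⟨y, hy, hy'⟩ := g2 P x h e0
    exact ⟨y, Or.inl hy, hy'⟩
  by_cases e1 : Meet T P₁ x₁ P x
  · obtain ⟨y, hy, hy'⟩ := k2 P x h e1
    exact ⟨y, Or.inr hy, hy'⟩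
  exact (third hd h0 h1 h h01 e0 e1).elim

/-- **Covering theorem**: the zeros off `x₀ = 0` lie in finitely many hyperplanes. -/
theorem cover [FiniteDimensional K V] (hd : 4 ≤ Module.finrank K V) (hO : Flat O)
    (h : VD O T x₀ x₁) (hN : NoHyp T) (hS : NoSing T) (hind : Ind x₀ x₁) :
    ∃ L : Set (V →ₗ[K] K), L.Finite ∧ (∀ y ∈ L, y ≠ 0) ∧
      ∀ P, T.f P P P = 0 → x₀ P ≠ 0 → ∃ y ∈ L, y P = 0 := by
  obtain ⟨L₁, f1, n1, c1⟩ := flex_cover hS
  obtain ⟨L₂, f2, n2, c2⟩ := dat_cover hd hN hS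
  have hfin := crit_cover (x₀ := x₀) (x₁ := x₁) hS (L₁ ∪ L₂) (f1.union f2) (fun R hR hR0 hy => by
    rcases classify hd hO h hS hind hR0 hR with h1 | h1 | ⟨x, h1⟩
    · obtain ⟨y, hy1, hy2⟩ := c1 R hR hR0 h1
      exact (hy y (Or.inl hy1) hy2).elim
    · exact h1
    · obtain ⟨y, hy1, hy2⟩ := c2 R x h1
      exact (hy y (Or.inr hy1) hy2).elim)
  refine ⟨(L₁ ∪ L₂) ∪ (fun t : K => x₁ - t • x₀) '' {t : K | ∃ P, x₀ P = 1 ∧ x₁ P = t ∧
    T.f P P P = 0 ∧ ∀ y ∈ L₁ ∪ L₂, y P ≠ 0}, (f1.union f2).union (hfin.image _), ?_,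
    fun P hP hP0 => ?_⟩
  · rintro y ((hy | hy) | ⟨t, -, rfl⟩)
    · exact n1 y hy
    · exact n2 y hy
    · intro h0
      have h1 := hind (-t) 1 (fun v => by
        have := congrArg (fun l : V →ₗ[K] K => l v) h0
        simp only [LinearMap.sub_apply, LinearMap.smul_apply, smul_eq_mul,
          LinearMap.zero_apply] at this
        linear_combination this)
      exact one_ne_zero h1.2
  · by_cases hy : ∃ y ∈ L₁ ∪ L₂, y P = 0
    · obtain ⟨y, hy1, hy2⟩ := hy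
      exact ⟨y, Or.inl hy1, hy2⟩
    · push Not at hy
      refine ⟨x₁ - (x₁ P / x₀ P) • x₀, Or.inr ⟨x₁ P / x₀ P, ⟨(x₀ P)⁻¹ • P, ?_, ?_, ?_, ?_⟩, rfl⟩, ?_⟩
      · rw [map_smul, smul_eq_mul, inv_mul_cancel₀ hP0]
      · rw [map_smul, smul_eq_mul]
        field_simp
      · simp only [map_smul, LinearMap.smul_apply, hP, smul_zero]
      · intro y hy1
        rw [map_smul, smul_eq_mul]
        exact mul_ne_zero (inv_ne_zero hP0) (hy y hy1)
      · simp only [LinearMap.sub_apply, LinearMap.smul_apply, smul_eq_mul]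
        field_simp
        ring

end

/-- **Main theorem**: the values of a quotient of linear forms at the zeros of a cubic form are a
thin set if they all lie in a flat set. -/
theorem thin_main {K : Type} [Field K] [CharZero K] {O : Set K} (hO : Flat O) (n : ℕ) :
    ∀ (V : Type) [AddCommGroup V] [Module K V] [FiniteDimensional K V] (T : STri K V)
      (x₀ x₁ : V →ₗ[K] K), Module.finrank K V = n → VD O T x₀ x₁ → Thin (DS T x₀ x₁) := by
  induction n using Nat.strong_induction_on with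
  | _ n ih =>
  intro V _ _ _ T x₀ x₁ hn h
  have ih' : ∀ y : V →ₗ[K] K, y ≠ 0 → Thin (DS (res T (LinearMap.ker y))
      (x₀.domRestrict (LinearMap.ker y)) (x₁.domRestrict (LinearMap.ker y))) := by
    intro y hy
    refine ih _ ?_ _ _ _ _ rfl (h.res _)
    rw [← hn]
    refine Submodule.finrank_lt fun h0 => hy ?_
    exact LinearMap.ker_eq_top.1 h0
  by_cases hind : Ind x₀ x₁
  swap
  · exact dep_case hind
  by_cases hN : NoHyp T
  swap
  · exact hyp_case hO h hN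
  by_cases hS : NoSing T
  swap
  · exact sing_case hO h hN hS hind ih'
  by_cases hd : 4 ≤ Module.finrank K V
  swap
  · exact low_case (by omega) hO h hN hS hind
  obtain ⟨L, hL, hL0, hcov⟩ := cover hd hO h hN hS hind
  refine (Thin.biUnion hL fun y hy => ih' y (hL0 y hy)).mono ?_
  rintro t ⟨P, hP, hP0, hP1⟩
  obtain ⟨y, hy, hyP⟩ := hcov P hP hP0
  exact Set.mem_biUnion hy ⟨⟨P, hyP⟩, hP, hP0, hP1⟩

end Pool.Agent.TH783.CE
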