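import Pool.Agent.TH766.HP.T_RICH
import Pool.Agent.TH783.CE.Flat

/-!
# Rational functions with values integral at a rich set of primes are constant
-/

set_option autoImplicit false

namespace Pool.Agent.TH783.CE

open Polynomial Pool.Agent.TH766.HP Filter Topology

/-- integrality at all primes of `Q` -/
def OQ (Q : Set ℕ) (t : ℚ) : Prop := ∀ p : ℕ, p.Prime → p ∈ Q → padicNorm p t ≤ 1

theorem norm_gt {Q : Set ℕ} {p : ℕ} [hp : Fact p.Prime] (hpQ : p ∈ Q) {a b : ℚ} (hb : b ≠ 0)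
    (h : OQ Q (a / b)) : ‖(a : ℚ_[p])‖ ≤ ‖(b : ℚ_[p])‖ := by
  have h1 := h p hp.out hpQ
  rw [← Rat.cast_le (K := ℝ), ← Padic.eq_padicNorm, Rat.cast_one, Rat.cast_div, norm_div] at h1
  have h2 : 0 < ‖(b : ℚ_[p])‖ := norm_pos_iff.2 (by exact_mod_cast hb)
  rwa [div_le_one h2] at h1

theorem one_var {Q : Set ℕ} (hQ : Rich Q) (p₀ p₁ : ℚ[X]) (h0 : p₀ ≠ 0)
    (h : ∀ s : ℚ, p₀.eval s ≠ 0 → OQ Q (p₁.eval s / p₀.eval s)) : ∃ c : ℚ, p₁ = C c * p₀ := by
  classical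
  obtain ⟨g, q₀, q₁, hg0, hq0, hq1, a, b, hab⟩ : ∃ g q₀ q₁ : ℚ[X], g ≠ 0 ∧ p₀ = g * q₀ ∧
      p₁ = g * q₁ ∧ ∃ a b : ℚ[X], a * q₀ + b * q₁ = 1 := by
    have hg : EuclideanDomain.gcd p₁ p₀ ≠ 0 := fun h => h0 (EuclideanDomain.gcd_eq_zero_iff.1 h).2
    obtain ⟨q₀, hq₀⟩ := EuclideanDomain.gcd_dvd_right p₁ p₀
    obtain ⟨q₁, hq₁⟩ := EuclideanDomain.gcd_dvd_left p₁ p₀
    refine ⟨EuclideanDomain.gcd p₁ p₀, q₀, q₁, hg, hq₀, hq₁,
      EuclideanDomain.gcdB p₁ p₀, EuclideanDomain.gcdA p₁ p₀, ?_⟩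
    have h1 := EuclideanDomain.gcd_eq_gcd_ab p₁ p₀
    generalize EuclideanDomain.gcdB p₁ p₀ = b at *
    generalize EuclideanDomain.gcdA p₁ p₀ = a at *
    generalize EuclideanDomain.gcd p₁ p₀ = g at *
    have h2 : g * (b * q₀ + a * q₁ - 1) = 0 := by
      rw [hq₀, hq₁] at h1
      linear_combination -h1
    exact sub_eq_zero.1 ((mul_eq_zero.1 h2).resolve_left hg)
  have hq00 : q₀ ≠ 0 := by
    rintro rfl
    exact h0 (by rw [hq0, mul_zero])
  have hkey : ∀ (p : ℕ) [Fact p.Prime], p ∈ Q → ∀ s : ℚ, g.eval s ≠ 0 → q₀.eval s ≠ 0 →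
      ‖aeval (s : ℚ_[p]) q₁‖ ≤ ‖aeval (s : ℚ_[p]) q₀‖ := by
    intro p hp hpQ s hs1 hs2
    have h1 := h s (by rw [hq0, eval_mul]; exact mul_ne_zero hs1 hs2)
    rw [hq0, hq1, eval_mul, eval_mul, mul_div_mul_left _ _ hs1] at h1
    have h2 := norm_gt hpQ hs2 h1
    have h3 : ∀ q : ℚ[X], aeval (s : ℚ_[p]) q = ((q.eval s : ℚ) : ℚ_[p]) := fun q => by
      have := aeval_algebraMap_apply ℚ_[p] s q
      simpa using this
    rw [h3, h3]
    exact h2
  have hfin : {s : ℚ | (g * q₀).eval s = 0}.Finite := by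
    have : {s : ℚ | (g * q₀).eval s = 0} ⊆ (g * q₀).roots.toFinset := by
      intro s hs
      simp only [Finset.mem_coe, Multiset.mem_toFinset]
      exact (mem_roots (mul_ne_zero hg0 hq00)).2 hs
    exact (Finset.finite_toSet _).subset this
  rcases Nat.eq_zero_or_pos q₀.natDegree with hd0 | hd0
  · rcases Nat.eq_zero_or_pos q₁.natDegree with hd1 | hd1
    · rw [eq_C_of_natDegree_eq_zero hd0] at hq0 hq00
      rw [eq_C_of_natDegree_eq_zero hd1] at hq1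
      have hc : q₀.coeff 0 ≠ 0 := fun h => hq00 (by rw [h, C_0])
      refine ⟨q₁.coeff 0 / q₀.coeff 0, ?_⟩
      rw [hq1, hq0, mul_left_comm, ← C_mul, div_mul_cancel₀ _ hc]
    · exfalso
      obtain ⟨p, hp, hpQ, -, -⟩ := hQ ∅ 0 (by simp)
      have hp1 : (1 : ℝ) < (p : ℝ) := by exact_mod_cast hp.out.one_lt
      have hz : Tendsto (fun k : ℕ => ‖(((p : ℚ)⁻¹ ^ k : ℚ) : ℚ_[p])‖) atTop atTop := by
        have e : (fun k : ℕ => ‖(((p : ℚ)⁻¹ ^ k : ℚ) : ℚ_[p])‖) = fun k => (p : ℝ) ^ k := by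
          funext k
          rw [Rat.cast_pow, norm_pow, Rat.cast_inv, norm_inv]
          simp
        rw [e]
        exact tendsto_pow_atTop_atTop_of_one_lt hp1
      have h1 : Tendsto (fun k : ℕ => ‖aeval (((p : ℚ)⁻¹ ^ k : ℚ) : ℚ_[p]) q₁‖) atTop atTop := by
        have h2 := tendsto_norm_atTop (R := ℚ_[p]) (q₁.map (algebraMap ℚ ℚ_[p])) (by
          rw [degree_map]
          exact natDegree_pos_iff_degree_pos.1 hd1) hz
        simpa [eval_map_algebraMap] using h2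
      have hinj : Function.Injective fun k : ℕ => ((p : ℚ)⁻¹ ^ k : ℚ) := by
        have hp2 : (1 : ℚ) < p := by exact_mod_cast hp.out.one_lt
        intro i j hij
        simp only [inv_pow, inv_inj] at hij
        exact pow_right_injective₀ (by linarith) hp2.ne' hij
      have h3 : ∀ᶠ k : ℕ in atTop, ((p : ℚ)⁻¹ ^ k : ℚ) ∉ {s : ℚ | (g * q₀).eval s = 0} := by
        have h4 := hfin.preimage (f := fun k : ℕ => ((p : ℚ)⁻¹ ^ k : ℚ)) hinj.injOn
        have h5 := h4.compl_mem_cofinite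
        rw [Nat.cofinite_eq_atTop] at h5
        exact h5
      obtain ⟨k, hk1, hk2⟩ := (h3.and (h1.eventually_gt_atTop
        ‖aeval (((p : ℚ)⁻¹ ^ 0 : ℚ) : ℚ_[p]) q₀‖)).exists
      have hk1' : (g * q₀).eval ((p : ℚ)⁻¹ ^ k) ≠ 0 := hk1
      rw [eval_mul] at hk1'
      have h6 := hkey p hpQ _ (left_ne_zero_of_mul hk1') (right_ne_zero_of_mul hk1')
      rw [eq_C_of_natDegree_eq_zero hd0, aeval_C] at h6 hk2
      linarith
  · exfalso
    obtain ⟨G, d, hd, hG⟩ := TRICH.clear q₀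
    have hdQ : (d : ℚ) ≠ 0 := by exact_mod_cast hd
    have hGd : 0 < G.natDegree := by
      have h1 : (G.map (Int.castRingHom ℚ)).natDegree = G.natDegree :=
        natDegree_map_eq_of_injective Int.cast_injective G
      rw [← h1, hG, natDegree_C_mul hdQ]
      exact hd0
    obtain ⟨p, hp, hpQ, -, hroot⟩ := hQ {G} 0 (by simpa using hGd)
    obtain ⟨α, hα⟩ := hroot G (Finset.mem_singleton_self _)
    have hα0 : aeval α q₀ = 0 := by
      have h1 : aeval α (G.map (Int.castRingHom ℚ)) = 0 := by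
        rw [← hα]
        exact aeval_map_algebraMap ℚ α G
      rw [hG, map_mul, aeval_C] at h1
      rcases mul_eq_zero.1 h1 with h | h
      · exact absurd ((map_eq_zero_iff _ (algebraMap ℚ ℚ_[p]).injective).1 h) hdQ
      · exact h
    have hα1 : aeval α q₁ ≠ 0 := by
      intro h1
      have h2 := congrArg (aeval α) hab
      rw [map_add, map_mul, map_mul, hα0, h1, mul_zero, mul_zero, add_zero, map_one] at h2
      exact zero_ne_one h2
    have hcont : ∀ q : ℚ[X], Continuous fun x : ℚ_[p] => aeval x q := fun q => by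
      have := (q.map (algebraMap ℚ ℚ_[p])).continuous
      simpa [eval_map_algebraMap] using this
    have hU : {x : ℚ_[p] | ‖aeval x q₀‖ < ‖aeval x q₁‖} ∈ 𝓝 α := by
      refine (isOpen_lt (hcont q₀).norm (hcont q₁).norm).mem_nhds ?_
      show ‖aeval α q₀‖ < ‖aeval α q₁‖
      rw [hα0, norm_zero]
      exact norm_pos_iff.2 hα1
    set F : Set ℚ_[p] := ((fun s : ℚ => (s : ℚ_[p])) '' {s : ℚ | (g * q₀).eval s = 0}) \ {α}
      with hF
    have hFf : F.Finite := (hfin.image _).sdiff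
    have hF1 : Fᶜ ∈ 𝓝 α := hFf.isClosed.isOpen_compl.mem_nhds (by simp [hF])
    obtain ⟨x, ⟨hx1, hx2⟩, hx3⟩ : ∃ x, x ∈ ({x : ℚ_[p] | ‖aeval x q₀‖ < ‖aeval x q₁‖} ∩ Fᶜ) ∧
        x ≠ α := by
      have h1 : ({x : ℚ_[p] | ‖aeval x q₀‖ < ‖aeval x q₁‖} ∩ Fᶜ) ∩ {α}ᶜ ∈ 𝓝[≠] α :=
        inter_mem (mem_nhdsWithin_of_mem_nhds (inter_mem hU hF1)) self_mem_nhdsWithin
      obtain ⟨x, hx, hx'⟩ := (inferInstance : NeBot (𝓝[≠] α)).nonempty_of_mem h1
      exact ⟨x, hx, hx'⟩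
    set W : Set ℚ_[p] := {x : ℚ_[p] | ‖aeval x q₀‖ < ‖aeval x q₁‖} ∩
      ((fun s : ℚ => (s : ℚ_[p])) '' {s : ℚ | (g * q₀).eval s = 0})ᶜ with hW
    have hWo : IsOpen W := (isOpen_lt (hcont q₀).norm (hcont q₁).norm).inter
      (hfin.image _).isClosed.isOpen_compl
    have hxW : x ∈ W := ⟨hx1, fun h => hx2 ⟨h, hx3⟩⟩
    obtain ⟨ε, hε, hball⟩ := Metric.isOpen_iff.1 hWo x hxW
    obtain ⟨r, hr⟩ := Padic.rat_dense p x hε
    have hrW : (r : ℚ_[p]) ∈ W := hball (by rw [Metric.mem_ball, dist_comm, dist_eq_norm]; exact hr)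
    have hr1 : (g * q₀).eval r ≠ 0 := fun h => hrW.2 ⟨r, h, rfl⟩
    rw [eval_mul] at hr1
    have h6 := hkey p hpQ r (left_ne_zero_of_mul hr1) (right_ne_zero_of_mul hr1)
    have h7 : ‖aeval (r : ℚ_[p]) q₀‖ < ‖aeval (r : ℚ_[p]) q₁‖ := hrW.1
    linarith

/-- the ring of rational numbers integral at all primes of a rich set is flat -/
theorem flat_OQ {Q : Set ℕ} (hQ : Rich Q) : Flat {t : ℚ | OQ Q t} :=
  fun p₀ p₁ h0 h => one_var hQ p₀ p₁ h0 h

end Pool.Agent.TH783.CE
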